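import Pool.Agent.Lib.MP_ffb813_an.Reduct

set_option autoImplicit false

open Complex MeasureTheory Set Filter Topology
open scoped ComplexConjugate Real NNReal

namespace Pool.Agent.Lib.MP_ffb813_an

lemma re_frac {η v : ℂ} (hη : ‖η‖ = 1) :
    ((η + v) / (η - v)).re = (1 - ‖v‖ ^ 2) / ‖η - v‖ ^ 2 := by
  have h1 : normSq η = 1 := by rw [Complex.normSq_eq_norm_sq, hη]; simp
  rw [Complex.div_re, ← Complex.normSq_eq_norm_sq, ← Complex.normSq_eq_norm_sq, ← add_div, ← h1]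
  congr 1
  simp only [normSq_apply, add_re, sub_re, add_im, sub_im]
  ring

lemma sub_ne_zero_of {η v : ℂ} (hη : ‖η‖ = 1) (hv : ‖v‖ < 1) : η - v ≠ 0 := by
  intro h
  have : η = v := by linear_combination h
  rw [this] at hη
  linarith

lemma HH_sub_ne {τ : ℂ} (hτ : τ ∈ HH) (x : ℝ) : τ - (x : ℂ) ≠ 0 := by
  intro h
  have h1 : (τ - (x : ℂ)).im = 0 := by rw [h]; simp
  simp only [sub_im, ofReal_im, sub_zero] at h1
  have h2 : 0 < τ.im := hτ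
  linarith

/-- The auxiliary function `S`. -/
noncomputable def SS (Φ : ℂ → ℂ) (x : ℝ) (τ : ℂ) : ℂ :=
  (eta Φ x + Φ τ) / (eta Φ x - Φ τ) - 2 * I / (τ - x)

lemma differentiableOn_SS {Φ : ℂ → ℂ} (hd : DifferentiableOn ℂ Φ HH) (hb : ∀ τ ∈ HH, ‖Φ τ‖ < 1)
    (x : ℝ) : DifferentiableOn ℂ (SS Φ x) HH := by
  unfold SS
  apply DifferentiableOn.sub
  · apply DifferentiableOn.div
    · exact (differentiableOn_const _).add hd
    · exact (differentiableOn_const _).sub hd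
    · intro τ hτ
      exact sub_ne_zero_of (norm_eta x) (hb τ hτ)
  · apply DifferentiableOn.div
    · fun_prop
    · fun_prop
    · intro τ hτ
      exact HH_sub_ne hτ x

lemma re_two_I_div {τ : ℂ} (x : ℝ) : (2 * I / (τ - x)).re = 2 * τ.im / ‖τ - x‖ ^ 2 := by
  rw [Complex.div_re, ← Complex.normSq_eq_norm_sq]
  simp

lemma re_C_ge {Φ : ℂ → ℂ} (hb : ∀ τ ∈ HH, ‖Φ τ‖ < 1) {x : ℝ} (hx : x ∈ FJ Φ 1) {τ : ℂ}
    (hτ : τ ∈ HH) : 2 * τ.im / ‖τ - x‖ ^ 2 ≤ ((eta Φ x + Φ τ) / (eta Φ x - Φ τ)).re := by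
  rw [re_frac (norm_eta x)]
  have h1 := (eta_spec hx).2 τ hτ
  have h2 : 0 < ‖τ - x‖ ^ 2 := by
    have := norm_pos_iff.mpr (HH_sub_ne hτ x)
    positivity
  have h3 : 0 < ‖eta Φ x - Φ τ‖ ^ 2 := by
    have := norm_pos_iff.mpr (sub_ne_zero_of (norm_eta (Φ := Φ) x) (hb τ hτ))
    positivity
  rw [div_le_div_iff₀ h2 h3]
  linarith

lemma re_SS_nonneg {Φ : ℂ → ℂ} (hb : ∀ τ ∈ HH, ‖Φ τ‖ < 1) {x : ℝ} (hx : x ∈ FJ Φ 1) {τ : ℂ}
    (hτ : τ ∈ HH) : 0 ≤ (SS Φ x τ).re := by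
  rw [SS, sub_re, re_two_I_div]
  have := re_C_ge hb hx hτ
  linarith

/-- radial smallness of `S`. -/
lemma SS_radial {Φ : ℂ → ℂ} (hb : ∀ τ ∈ HH, ‖Φ τ‖ < 1) {x : ℝ} (hx : x ∈ FJ Φ 1) {lam y : ℝ}
    (hlam : 1 / 2 ≤ lam) (hy : 0 < y) (h : 2 * lam * y ≤ 1 - ‖Φ (x + y * I)‖ ^ 2) :
    (y * ‖SS Φ x (x + y * I)‖) ^ 2 ≤ 8 * (1 - lam) := by
  set v := Φ (x + y * I) with hv
  set η := eta Φ x with hη
  have hn : ‖η‖ = 1 := norm_eta x
  have hvb : ‖v‖ < 1 := hb _ (mem_HH_add hy)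
  have hne := sub_ne_zero_of hn hvb
  set ρ := ‖η - v‖ with hρ
  have hρpos : 0 < ρ := norm_pos_iff.mpr hne
  have hρy : ρ ≤ y := by
    have := JL_radial hb zero_le_one (eta_spec hx) hy
    simpa using this
  set Cc := (η + v) / (η - v) with hCc
  have hS : SS Φ x (x + y * I) = Cc - ((2 / y : ℝ) : ℂ) := by
    rw [SS, hCc]
    congr 1
    push_cast
    have : (y : ℂ) ≠ 0 := by exact_mod_cast hy.ne'
    field_simp
    ring_nf
  have hre : Cc.re = (1 - ‖v‖ ^ 2) / ρ ^ 2 := re_frac hn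
  have hnC : ‖Cc‖ ^ 2 ≤ 4 / ρ ^ 2 := by
    rw [hCc, norm_div, div_pow]
    apply div_le_div_of_nonneg_right _ (by positivity)
    have : ‖η + v‖ ≤ 2 := (norm_add_le _ _).trans (by linarith)
    nlinarith [norm_nonneg (η + v)]
  have hSn : ‖SS Φ x (x + y * I)‖ ^ 2 = ‖Cc‖ ^ 2 - 2 * (2 / y) * Cc.re + (2 / y) ^ 2 := by
    rw [hS, ← Complex.normSq_eq_norm_sq, ← Complex.normSq_eq_norm_sq]
    simp only [normSq_apply, sub_re, sub_im, ofReal_re, ofReal_im]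
    ring
  have hre2 : 2 * lam * y / ρ ^ 2 ≤ Cc.re := by
    rw [hre]
    exact div_le_div_of_nonneg_right h (by positivity)
  have h5 : ‖SS Φ x (x + y * I)‖ ^ 2 ≤ 4 / ρ ^ 2 - 2 * (2 / y) * (2 * lam * y / ρ ^ 2) +
      (2 / y) ^ 2 := by
    rw [hSn]
    have : 2 * (2 / y) * (2 * lam * y / ρ ^ 2) ≤ 2 * (2 / y) * Cc.re := by
      apply mul_le_mul_of_nonneg_left hre2 (by positivity)
    linarith
  have h6 : 4 / ρ ^ 2 - 2 * (2 / y) * (2 * lam * y / ρ ^ 2) + (2 / y) ^ 2 =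
      4 / y ^ 2 - 4 * (2 * lam - 1) / ρ ^ 2 := by
    field_simp
    ring
  have h7 : 4 * (2 * lam - 1) / y ^ 2 ≤ 4 * (2 * lam - 1) / ρ ^ 2 := by
    apply div_le_div_of_nonneg_left (by linarith) (by positivity)
    exact pow_le_pow_left₀ hρpos.le hρy 2
  have h8 : ‖SS Φ x (x + y * I)‖ ^ 2 ≤ 8 * (1 - lam) / y ^ 2 := by
    have : 8 * (1 - lam) / y ^ 2 = 4 / y ^ 2 - 4 * (2 * lam - 1) / y ^ 2 := by ring
    linarith
  rw [mul_pow]
  rw [le_div_iff₀ (by positivity)] at h8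
  linarith

/-- bound of `S` in a cone of aperture `5`. -/
lemma SS_cone {Φ : ℂ → ℂ} (hd : DifferentiableOn ℂ Φ HH) (hb : ∀ τ ∈ HH, ‖Φ τ‖ < 1) {x : ℝ}
    (hx : x ∈ FJ Φ 1) {τ : ℂ} (hτ : τ ∈ HH) (hcone : |τ.re - x| ≤ 5 * τ.im) :
    ‖SS Φ x τ‖ ≤ 31 * ‖SS Φ x (x + τ.im * I)‖ := by
  have hy : 0 < τ.im := hτ
  have h₀ : (x + τ.im * I : ℂ) ∈ HH := mem_HH_add hy
  have g := growth (differentiableOn_SS hd hb x) (fun z hz => re_SS_nonneg hb hx hz) h₀ hτ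
  set p := ‖τ - conj (x + τ.im * I : ℂ)‖ with hp
  set q := ‖τ - (x + τ.im * I : ℂ)‖ with hq
  have e1 : p ^ 2 - q ^ 2 = 4 * τ.im ^ 2 := by
    have := norm_sq_sub_conj (x + τ.im * I : ℂ) τ
    simp only [add_im, ofReal_im, mul_im, ofReal_re, I_im, mul_one, I_re, mul_zero, add_zero,
      zero_add] at this
    rw [hp, hq, this]; ring
  have e2 : q = |τ.re - x| := by
    have : τ - (x + τ.im * I : ℂ) = ((τ.re - x : ℝ) : ℂ) := by
      apply Complex.ext <;> simp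
    rw [hq, this, Complex.norm_real, Real.norm_eq_abs]
  have hp0 : 0 ≤ p := norm_nonneg _
  have hq0 : 0 ≤ q := norm_nonneg _
  have hq5 : q ≤ 5 * τ.im := by rw [e2]; exact hcone
  have hp6 : p ≤ 6 * τ.im := by
    apply le_of_sq_le_sq _ (by positivity)
    nlinarith
  have s0 := norm_nonneg (SS Φ x τ)
  have s1 := norm_nonneg (SS Φ x (x + τ.im * I))
  have h1 : ‖SS Φ x τ‖ * (p - q) * (p + q) ≤ ‖SS Φ x (x + τ.im * I)‖ * (p + q) * (p + q) :=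
    mul_le_mul_of_nonneg_right g (by positivity)
  have h2 : ‖SS Φ x τ‖ * (4 * τ.im ^ 2) ≤ ‖SS Φ x (x + τ.im * I)‖ * (121 * τ.im ^ 2) := by
    have a1 : ‖SS Φ x τ‖ * (4 * τ.im ^ 2) = ‖SS Φ x τ‖ * (p - q) * (p + q) := by
      rw [← e1]; ring
    rw [a1]
    refine h1.trans ?_
    rw [mul_assoc]
    apply mul_le_mul_of_nonneg_left _ s1
    nlinarith
  have h3 : 0 < τ.im ^ 2 := by positivity
  nlinarith

/-- The function which vanishes identically iff `Φ` is a rotation. -/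
noncomputable def kk (Φ : ℂ → ℂ) (τ : ℂ) : ℂ := deriv Φ τ - I * Φ τ

/-- Algebraic identity for `kk` in terms of `S`. -/
lemma kk_eq {Φ : ℂ → ℂ} (hd : DifferentiableOn ℂ Φ HH) (hb : ∀ τ ∈ HH, ‖Φ τ‖ < 1) {x : ℝ}
    {τ : ℂ} (hτ : τ ∈ HH) :
    kk Φ τ * ((eta Φ x + Φ τ) / (eta Φ x - Φ τ) + 1) ^ 2 =
      eta Φ x * (2 * deriv (SS Φ x) τ + 4 * SS Φ x τ / (τ - x) - I * (SS Φ x τ) ^ 2 + I) := by
  have hne := sub_ne_zero_of (norm_eta (Φ := Φ) x) (hb τ hτ)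
  have hτx := HH_sub_ne hτ x
  have hη0 : eta Φ x ≠ 0 := by
    intro h
    have := norm_eta (Φ := Φ) x
    rw [h] at this
    simp at this
  have hΦ : HasDerivAt Φ (deriv Φ τ) τ :=
    (hd.differentiableAt (isOpen_HH.mem_nhds hτ)).hasDerivAt
  have hS : HasDerivAt (SS Φ x) ((deriv Φ τ * (eta Φ x - Φ τ) - (eta Φ x + Φ τ) * (-deriv Φ τ)) /
      (eta Φ x - Φ τ) ^ 2 - (0 * (τ - x) - 2 * I * 1) / (τ - x) ^ 2) τ := by
    unfold SS
    apply HasDerivAt.sub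
    · exact HasDerivAt.div (hΦ.const_add _) (hΦ.const_sub _) hne
    · exact HasDerivAt.div (hasDerivAt_const _ _) ((hasDerivAt_id τ).sub_const _) hτx
  rw [hS.deriv, kk, SS]
  set η := eta Φ x with hη
  set D := deriv Φ τ with hD
  set v := Φ τ with hv
  have hI : I ^ 2 = -1 := Complex.I_sq
  set w := τ - (x : ℂ) with hw
  have e1 : (η + v) / (η - v) + 1 = 2 * η / (η - v) := by
    field_simp
    ring
  rw [e1]
  field_simp
  ring_nf
  simp only [show I ^ 3 = -I by rw [pow_succ, hI]; ring, hI]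
  ring

/-- derivative bound for `S` in the cone of aperture `2`. -/
lemma deriv_SS_cone {Φ : ℂ → ℂ} (hd : DifferentiableOn ℂ Φ HH) (hb : ∀ τ ∈ HH, ‖Φ τ‖ < 1) {x : ℝ}
    (hx : x ∈ FJ Φ 1) {δ κ : ℝ}
    (hrad : ∀ y ∈ Ioo 0 δ, y * ‖SS Φ x (x + y * I)‖ ≤ κ)
    {τ : ℂ} (hτ : τ ∈ HH) (hcone : |τ.re - x| ≤ 2 * τ.im) (hτδ : 2 * τ.im < δ) :
    ‖deriv (SS Φ x) τ‖ ≤ 124 * κ / τ.im ^ 2 := by
  have hy : 0 < τ.im := hτ
  have hball : Metric.closedBall τ (τ.im / 2) ⊆ HH := by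
    intro z hz
    rw [mem_closedBall_iff_norm] at hz
    have := Complex.abs_im_le_norm (z - τ)
    rw [sub_im] at this
    have := (abs_le.mp (this.trans hz)).1
    show 0 < z.im
    linarith
  have h1 : ‖deriv (SS Φ x) τ‖ ≤ (62 * κ / τ.im) / (τ.im / 2) := by
    apply Complex.norm_deriv_le_of_forall_mem_sphere_norm_le (by positivity)
    · apply DifferentiableOn.diffContOnCl
      apply (differentiableOn_SS hd hb x).mono
      exact Metric.closure_ball_subset_closedBall.trans hball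
    · intro z hz
      have hz' : z ∈ Metric.closedBall τ (τ.im / 2) := Metric.sphere_subset_closedBall hz
      rw [mem_closedBall_iff_norm] at hz'
      have a1 := Complex.abs_im_le_norm (z - τ)
      have a2 := Complex.abs_re_le_norm (z - τ)
      rw [sub_im] at a1
      rw [sub_re] at a2
      have b1 := abs_le.mp (a1.trans hz')
      have b2 := a2.trans hz'
      have hzHH : z ∈ HH := hball (Metric.sphere_subset_closedBall hz)
      have hc : |z.re - x| ≤ 5 * z.im := by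
        have : |z.re - x| ≤ |z.re - τ.re| + |τ.re - x| := abs_sub_le _ _ _
        linarith [b1.1]
      have h3 := SS_cone hd hb hx hzHH hc
      have h4 := hrad z.im ⟨hzHH, by linarith [b1.2]⟩
      have h5 : τ.im / 2 ≤ z.im := by linarith [b1.1]
      have s1 := norm_nonneg (SS Φ x (x + z.im * I))
      have h6 : τ.im / 2 * ‖SS Φ x (x + z.im * I)‖ ≤ κ :=
        (mul_le_mul_of_nonneg_right h5 s1).trans h4
      rw [le_div_iff₀ hy]
      nlinarith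
  refine h1.trans (le_of_eq ?_)
  field_simp
  ring

/-- main bound for `kk` in the cone. -/
lemma kk_cone {Φ : ℂ → ℂ} (hd : DifferentiableOn ℂ Φ HH) (hb : ∀ τ ∈ HH, ‖Φ τ‖ < 1) {x : ℝ}
    (hx : x ∈ FJ Φ 1) {δ κ : ℝ}
    (hrad : ∀ y ∈ Ioo 0 δ, y * ‖SS Φ x (x + y * I)‖ ≤ κ)
    {τ : ℂ} (hτ : τ ∈ HH) (hcone : |τ.re - x| ≤ 2 * τ.im) (hτδ : 2 * τ.im < δ) :
    ‖kk Φ τ‖ ≤ 7 * (372 * κ + 961 * κ ^ 2 + τ.im ^ 2) := by
  have hy : 0 < τ.im := hτ
  have hκ0 : 0 ≤ κ := by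
    have := hrad τ.im ⟨hy, by linarith⟩
    exact le_trans (by positivity) this
  have hk := kk_eq hd hb (x := x) hτ
  have hS1 : ‖SS Φ x τ‖ ≤ 31 * κ / τ.im := by
    have h3 := SS_cone hd hb hx hτ (by linarith)
    have h4 := hrad τ.im ⟨hy, by linarith⟩
    rw [le_div_iff₀ hy]
    nlinarith
  have hS2 := deriv_SS_cone hd hb hx hrad hτ hcone hτδ
  have hdist1 : τ.im ≤ ‖τ - x‖ := by
    have := Complex.abs_im_le_norm (τ - x)
    simp only [sub_im, ofReal_im, sub_zero] at this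
    exact (le_abs_self _).trans this
  have hdist2 : ‖τ - x‖ ^ 2 ≤ 5 * τ.im ^ 2 := by
    rw [← Complex.normSq_eq_norm_sq, normSq_apply]
    simp only [sub_im, ofReal_im, sub_zero, sub_re, ofReal_re]
    have := abs_le.mp hcone
    nlinarith
  set Cc := (eta Φ x + Φ τ) / (eta Φ x - Φ τ) with hCc
  have hC1 : 2 / (5 * τ.im) ≤ ‖Cc + 1‖ := by
    have h1 := re_C_ge hb hx hτ
    have h2 : (Cc + 1).re ≤ ‖Cc + 1‖ := Complex.re_le_norm _
    rw [add_re, one_re] at h2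
    have h3 : 2 / (5 * τ.im) ≤ 2 * τ.im / ‖τ - x‖ ^ 2 := by
      have hpos : 0 < ‖τ - x‖ ^ 2 := by
        have := norm_pos_iff.mpr (HH_sub_ne hτ x)
        positivity
      rw [div_le_div_iff₀ (by positivity) hpos]
      nlinarith
    linarith
  have hrhs : ‖eta Φ x * (2 * deriv (SS Φ x) τ + 4 * SS Φ x τ / (τ - x) - I * (SS Φ x τ) ^ 2 + I)‖
      ≤ 2 * (124 * κ / τ.im ^ 2) + 4 * (31 * κ / τ.im) / τ.im + (31 * κ / τ.im) ^ 2 + 1 := by
    rw [norm_mul, norm_eta, one_mul]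
    refine (norm_add_le _ _).trans ?_
    rw [Complex.norm_I]
    gcongr
    refine (norm_sub_le _ _).trans ?_
    rw [norm_mul I, Complex.norm_I, one_mul, norm_pow]
    gcongr
    refine (norm_add_le _ _).trans ?_
    rw [norm_mul, norm_div, norm_mul]
    have e2 : ‖(2:ℂ)‖ = 2 := by simp
    have e4 : ‖(4:ℂ)‖ = 4 := by simp
    rw [e2, e4]
    gcongr
  rw [← hk, norm_mul, norm_pow] at hrhs
  have h1 : ‖kk Φ τ‖ * (2 / (5 * τ.im)) ^ 2 ≤ ‖kk Φ τ‖ * ‖Cc + 1‖ ^ 2 := by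
    apply mul_le_mul_of_nonneg_left _ (norm_nonneg _)
    exact pow_le_pow_left₀ (by positivity) hC1 2
  have h2 := h1.trans hrhs
  have e5 : 2 * (124 * κ / τ.im ^ 2) + 4 * (31 * κ / τ.im) / τ.im + (31 * κ / τ.im) ^ 2 + 1 =
      (372 * κ + 961 * κ ^ 2 + τ.im ^ 2) / τ.im ^ 2 := by
    field_simp
    ring
  have e6 : ‖kk Φ τ‖ * (2 / (5 * τ.im)) ^ 2 = (4 / 25 * ‖kk Φ τ‖) / τ.im ^ 2 := by
    field_simp
    ring
  rw [e5, e6, div_le_div_iff_of_pos_right (by positivity)] at h2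
  have : 0 ≤ 372 * κ + 961 * κ ^ 2 + τ.im ^ 2 := by positivity
  linarith

end Pool.Agent.Lib.MP_ffb813_an
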