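import Pool.Agent.Lib.MP_ffb813_an.Osc

set_option autoImplicit false

open Complex MeasureTheory Set Filter Topology
open scoped ComplexConjugate Real NNReal

namespace Pool.Agent.Lib.MP_ffb813_an

lemma compact_good {Φ : ℂ → ℂ} (hd : DifferentiableOn ℂ Φ HH) (hb : ∀ τ ∈ HH, ‖Φ τ‖ < 1)
    {a b : ℝ} (hgood : ∀ x ∈ Icc a b, x ∉ FJ Φ 1) :
    ∃ δ > 0, δ ≤ 1 ∧ ∀ x ∈ Icc a b, ∀ y ∈ Ioc (0:ℝ) δ, 2 * y < 1 - ‖Φ (x + y * I)‖ ^ 2 := by
  by_contra hcon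
  push Not at hcon
  have h' : ∀ n : ℕ, ∃ x ∈ Icc a b, ∃ y ∈ Ioc (0:ℝ) (1 / ((n:ℝ) + 1)),
      1 - ‖Φ (x + y * I)‖ ^ 2 ≤ 2 * y := by
    intro n
    apply hcon _ (by positivity)
    rw [div_le_one (by positivity)]
    have : (0:ℝ) ≤ n := Nat.cast_nonneg n
    linarith
  choose x hx y hy hxy using h'
  obtain ⟨x₀, hx₀, φ, hφ, hlim⟩ := isCompact_Icc.tendsto_subseq hx
  apply hgood x₀ hx₀
  apply mem_FJ_of_frequently hd hb
  intro δ hδ
  have hy0 : Tendsto (fun n => y (φ n)) atTop (𝓝 0) := by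
    refine squeeze_zero (fun n => (hy (φ n)).1.le) (fun n => (hy (φ n)).2) ?_
    exact tendsto_one_div_add_atTop_nhds_zero_nat.comp hφ.tendsto_atTop
  have hlim2 : Tendsto (fun n => ((x (φ n) : ℂ) + (y (φ n) : ℂ) * I)) atTop (𝓝 (x₀ : ℂ)) := by
    have t1 : Tendsto (fun n => (x (φ n) : ℂ)) atTop (𝓝 (x₀ : ℂ)) :=
      (Complex.continuous_ofReal.tendsto x₀).comp hlim
    have t2 : Tendsto (fun n => (y (φ n) : ℂ)) atTop (𝓝 ((0:ℝ) : ℂ)) :=
      (Complex.continuous_ofReal.tendsto 0).comp hy0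
    have := t1.add (t2.mul_const I)
    simpa using this
  have hev : ∀ᶠ n in atTop, ‖((x (φ n) : ℂ) + (y (φ n) : ℂ) * I) - x₀‖ < δ := by
    rw [Metric.tendsto_atTop] at hlim2
    obtain ⟨N, hN⟩ := hlim2 δ hδ
    filter_upwards [eventually_ge_atTop N] with n hn
    simpa [dist_eq_norm] using hN n hn
  obtain ⟨n, hn⟩ := hev.exists
  refine ⟨_, mem_HH_add (hy (φ n)).1, hn, ?_⟩
  have := hxy (φ n)
  simpa using this

/-- The function `U = Φ e^{-iτ}`. -/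
noncomputable def UU (Φ : ℂ → ℂ) (τ : ℂ) : ℂ := Φ τ * Complex.exp (-(I * τ))

lemma norm_exp_negI (τ : ℂ) : ‖Complex.exp (-(I * τ))‖ = Real.exp τ.im := by
  rw [Complex.norm_exp]
  simp

lemma norm_UU_lt {Φ : ℂ → ℂ} {τ : ℂ} (h : 2 * τ.im < 1 - ‖Φ τ‖ ^ 2) : ‖UU Φ τ‖ < 1 := by
  rw [UU, norm_mul, norm_exp_negI]
  have h1 : ‖Φ τ‖ ^ 2 < Real.exp (-(2 * τ.im)) := by
    have := Real.add_one_le_exp (-(2 * τ.im))
    linarith
  have h2 : (‖Φ τ‖ * Real.exp τ.im) ^ 2 < 1 ^ 2 := by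
    have h3 : Real.exp (-(2 * τ.im)) * Real.exp τ.im ^ 2 = 1 := by
      rw [← Real.exp_nat_mul, ← Real.exp_add]
      simp
    rw [mul_pow, one_pow, ← h3]
    exact mul_lt_mul_of_pos_right h1 (by positivity)
  exact lt_of_pow_lt_pow_left₀ 2 zero_le_one h2

lemma differentiableOn_UU {Φ : ℂ → ℂ} (hd : DifferentiableOn ℂ Φ HH) :
    DifferentiableOn ℂ (UU Φ) HH := by
  unfold UU
  apply hd.mul
  fun_prop

lemma rect_subset {a b y₁ y₂ : ℝ} (h1 : 0 < y₁) (h2 : 0 < y₂) :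
    (uIcc a b ×ℂ uIcc y₁ y₂) ⊆ HH := by
  intro z hz
  have h3 : z.im ∈ uIcc y₁ y₂ := hz.2
  rw [Set.mem_uIcc] at h3
  show 0 < z.im
  rcases h3 with h3 | h3 <;> linarith [h3.1, h3.2]

lemma contour_rect {Φ h : ℂ → ℂ} (hd : DifferentiableOn ℂ Φ HH) (hb : ∀ τ ∈ HH, ‖Φ τ‖ < 1)
    (hhd : DifferentiableOn ℂ h HH) {C : ℝ} (hC : ∀ τ ∈ HH, τ.im ≤ 1 → ‖h τ‖ ≤ C)
    {a b : ℝ} (hab : a ≤ b) (hgood : ∀ x ∈ Icc a b, x ∉ FJ Φ 1) {ε : ℝ} (hε : 0 < ε) :
    ∃ y₀ > 0, ∃ N : ℕ, ∀ n ≥ N, ∀ y ∈ Ioc (0:ℝ) y₀,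
      ‖∫ x in a..b, (UU Φ (x + y * I)) ^ n * h (x + y * I)‖ ≤ ε := by
  obtain ⟨δ, hδ, hδ1, hgd⟩ := compact_good hd hb hgood
  have hC0 : 0 ≤ C := (norm_nonneg _).trans (hC (0 + (1:ℝ) * I) (mem_HH_add one_pos) (by simp))
  -- choose the height
  set y₁ : ℝ := min δ (ε / (4 * (C + 1))) with hy₁
  have hy₁pos : 0 < y₁ := lt_min hδ (by positivity)
  have hy₁δ : y₁ ≤ δ := min_le_left _ _
  have hy₁ε : y₁ * C ≤ ε / 4 := by
    have h1 : y₁ ≤ ε / (4 * (C + 1)) := min_le_right _ _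
    have h2 : ε / (4 * (C + 1)) * C ≤ ε / 4 := by
      rw [div_mul_eq_mul_div, div_le_div_iff₀ (by positivity) (by norm_num)]
      nlinarith
    exact (mul_le_mul_of_nonneg_right h1 hC0).trans h2
  -- sup on the top side
  have hcontU : ContinuousOn (fun x : ℝ => ‖UU Φ (x + y₁ * I)‖) (Icc a b) := by
    apply ContinuousOn.norm
    apply (differentiableOn_UU hd).continuousOn.comp (t := HH)
    · apply Continuous.continuousOn; fun_prop
    · intro x _; exact mem_HH_add hy₁pos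
  have hq : ∃ q : ℝ, 0 ≤ q ∧ q < 1 ∧ ∀ x ∈ Icc a b, ‖UU Φ (x + y₁ * I)‖ ≤ q := by
    obtain ⟨x₀, hx₀, hmax⟩ := isCompact_Icc.exists_isMaxOn (nonempty_Icc.mpr hab) hcontU
    refine ⟨‖UU Φ (x₀ + y₁ * I)‖, norm_nonneg _, ?_, fun x hx => hmax hx⟩
    apply norm_UU_lt
    have := hgd x₀ hx₀ y₁ ⟨hy₁pos, hy₁δ⟩
    simpa using this
  obtain ⟨q, hq0, hq1, hqb⟩ := hq
  have hpow : ∃ N : ℕ, ∀ n ≥ N, (b - a) * (q ^ n * C) ≤ ε / 4 := by
    have t1 : Tendsto (fun n : ℕ => (b - a) * (q ^ n * C)) atTop (𝓝 ((b - a) * (0 * C))) :=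
      ((tendsto_pow_atTop_nhds_zero_of_lt_one hq0 hq1).mul_const C).const_mul _
    rw [zero_mul, mul_zero] at t1
    have := t1.eventually (gt_mem_nhds (show (0:ℝ) < ε / 4 by positivity))
    rw [eventually_atTop] at this
    obtain ⟨N, hN⟩ := this
    exact ⟨N, fun n hn => (hN n hn).le⟩
  obtain ⟨N, hN⟩ := hpow
  refine ⟨y₁, hy₁pos, N, fun n hn y hy => ?_⟩
  set W : ℂ → ℂ := fun τ => (UU Φ τ) ^ n * h τ with hW
  have hWd : DifferentiableOn ℂ W HH := ((differentiableOn_UU hd).pow n).mul hhd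
  have hrect := Complex.integral_boundary_rect_eq_zero_of_differentiableOn W
    (a + y * I) (b + y₁ * I) (hWd.mono (by
      simpa using rect_subset (a := a) (b := b) hy.1 hy₁pos))
  simp only [add_re, ofReal_re, mul_re, I_re, mul_zero, ofReal_im, I_im, mul_one, sub_self,
    add_zero, add_im, mul_im, zero_add] at hrect
  have hvert : ∀ x ∈ Icc a b, ‖∫ s in y..y₁, W (x + s * I)‖ ≤ ε / 4 := by
    intro x hx
    have : ∀ s ∈ uIoc y y₁, ‖W (x + s * I)‖ ≤ C := by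
      intro s hs
      rw [uIoc_of_le hy.2] at hs
      have hs0 : 0 < s := hy.1.trans hs.1
      have hU : ‖UU Φ (x + s * I)‖ ≤ 1 := by
        apply (norm_UU_lt _).le
        have := hgd x hx s ⟨hs0, hs.2.trans hy₁δ⟩
        simpa using this
      rw [hW, norm_mul, norm_pow]
      have hh1 := hC _ (mem_HH_add (x := x) hs0) (by simp; linarith [hs.2])
      calc ‖UU Φ (x + s * I)‖ ^ n * ‖h (x + s * I)‖ ≤ 1 * C :=
            mul_le_mul (pow_le_one₀ (norm_nonneg _) hU) hh1 (norm_nonneg _) zero_le_one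
        _ = C := one_mul C
    have h1 := intervalIntegral.norm_integral_le_of_norm_le_const this
    rw [abs_of_nonneg (by linarith [hy.2])] at h1
    refine h1.trans ?_
    nlinarith [hy.1]
  have htop : ‖∫ x in a..b, W (x + y₁ * I)‖ ≤ ε / 4 := by
    have : ∀ x ∈ uIoc a b, ‖W (x + y₁ * I)‖ ≤ q ^ n * C := by
      intro x hx
      rw [uIoc_of_le hab] at hx
      have hx' : x ∈ Icc a b := ⟨hx.1.le, hx.2⟩
      rw [hW, norm_mul, norm_pow]
      have hh1 := hC _ (mem_HH_add (x := x) hy₁pos) (by simp; linarith)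
      exact mul_le_mul (pow_le_pow_left₀ (norm_nonneg _) (hqb x hx') n) hh1 (norm_nonneg _)
        (by positivity)
    have h1 := intervalIntegral.norm_integral_le_of_norm_le_const this
    rw [abs_of_nonneg (by linarith)] at h1
    refine h1.trans ?_
    have := hN n hn
    linarith
  have heq : (∫ x in a..b, W (x + y * I)) = (∫ x in a..b, W (x + y₁ * I)) -
      I • (∫ s in y..y₁, W (b + s * I)) + I • (∫ s in y..y₁, W (a + s * I)) := by
    linear_combination hrect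
  show ‖∫ x in a..b, W (x + y * I)‖ ≤ ε
  rw [heq]
  have v1 := hvert b ⟨hab, le_rfl⟩
  have v2 := hvert a ⟨le_rfl, hab⟩
  calc ‖(∫ x in a..b, W (x + y₁ * I)) - I • (∫ s in y..y₁, W (b + s * I)) +
        I • (∫ s in y..y₁, W (a + s * I))‖
      ≤ ‖(∫ x in a..b, W (x + y₁ * I)) - I • (∫ s in y..y₁, W (b + s * I))‖ +
        ‖I • (∫ s in y..y₁, W (a + s * I))‖ := norm_add_le _ _
    _ ≤ ‖(∫ x in a..b, W (x + y₁ * I))‖ + ‖I • (∫ s in y..y₁, W (b + s * I))‖ +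
        ‖I • (∫ s in y..y₁, W (a + s * I))‖ := by
        gcongr; exact norm_sub_le _ _
    _ ≤ ε / 4 + ε / 4 + ε / 4 := by
        rw [norm_smul, norm_smul, Complex.norm_I, one_mul, one_mul]
        gcongr
    _ ≤ ε := by linarith

end Pool.Agent.Lib.MP_ffb813_an
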