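import Pool.Agent.Lib.MP_ffb813_an.NullSet

set_option autoImplicit false

open Complex MeasureTheory Set Filter Topology
open scoped ComplexConjugate Real NNReal

namespace Pool.Agent.Lib.MP_ffb813_an

lemma exp_I_mem_ball {τ : ℂ} (hτ : τ ∈ HH) : Complex.exp (I * τ) ∈ Metric.ball (0:ℂ) 1 := by
  rw [mem_ball_zero_iff, Complex.norm_exp]
  have hy : 0 < τ.im := hτ
  simp [hy]

lemma differentiableOn_Phi {φ : ℂ → ℂ} (hφ : DifferentiableOn ℂ φ (Metric.ball (0 : ℂ) 1)) :
    DifferentiableOn ℂ (fun τ => φ (Complex.exp (I * τ))) HH := by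
  apply hφ.comp (t := Metric.ball (0:ℂ) 1)
  · fun_prop
  · intro τ hτ
    exact exp_I_mem_ball hτ

/-- The exceptional set is null unless the map is a rotation. -/
theorem null_G' {φ : ℂ → ℂ} (hφ : DifferentiableOn ℂ φ (Metric.ball (0 : ℂ) 1))
    (hm : Set.MapsTo φ (Metric.ball (0 : ℂ) 1) (Metric.ball (0 : ℂ) 1))
    (hrot : ¬ ∃ c : ℂ, ‖c‖ = 1 ∧ ∀ z ∈ Metric.ball (0 : ℂ) 1, φ z = c * z) :
    volume (FJ (fun τ => φ (Complex.exp (I * τ))) 1 \
      ⋃ m : ℕ, FJ (fun τ => φ (Complex.exp (I * τ))) (1 - 1 / ((m : ℝ) + 2))) = 0 := by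
  set Φ : ℂ → ℂ := fun τ => φ (Complex.exp (I * τ)) with hΦ
  have hd : DifferentiableOn ℂ Φ HH := differentiableOn_Phi hφ
  have hb : ∀ τ ∈ HH, ‖Φ τ‖ < 1 := by
    intro τ hτ
    simpa using hm (exp_I_mem_ball hτ)
  by_cases hk : ∀ τ ∈ HH, kk Φ τ = 0
  swap
  · exact null_G hd hb hk
  -- kk vanishes identically
  have hconst : ∃ c, ∀ τ ∈ HH, UU Φ τ = c := by
    apply isOpen_HH.exists_is_const_of_deriv_eq_zero convex_HH.isPreconnected
      (differentiableOn_UU hd)
    intro τ hτ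
    have h1 : HasDerivAt Φ (deriv Φ τ) τ :=
      (hd.differentiableAt (isOpen_HH.mem_nhds hτ)).hasDerivAt
    have h2 : HasDerivAt (fun z : ℂ => Complex.exp (-(I * z))) (Complex.exp (-(I * τ)) * (-(I * 1))) τ := by
      apply HasDerivAt.cexp
      exact ((hasDerivAt_id τ).const_mul I).neg
    have h3 := (h1.mul h2).deriv
    have h4 := hk τ hτ
    rw [kk] at h4
    show deriv (UU Φ) τ = 0
    unfold UU
    rw [show (fun τ => Φ τ * Complex.exp (-(I * τ))) = Φ * fun z : ℂ => Complex.exp (-(I * z)) from rfl,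
      h3]
    linear_combination Complex.exp (-(I * τ)) * h4
  obtain ⟨c, hc⟩ := hconst
  have hΦc : ∀ τ ∈ HH, Φ τ = c * Complex.exp (I * τ) := by
    intro τ hτ
    have := hc τ hτ
    rw [← this, UU, mul_assoc, ← Complex.exp_add]
    simp
  have hzc : ∀ z ∈ Metric.ball (0:ℂ) 1, z ≠ 0 → φ z = c * z := by
    intro z hz hz0
    have hτ : (-I * Complex.log z) ∈ HH := by
      show 0 < (-I * Complex.log z).im
      simp only [mul_im, I_re, zero_mul, neg_im, I_im, Complex.log_re, neg_mul,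
        one_mul, zero_add]
      have h1 : ‖z‖ < 1 := by simpa using hz
      have h2 : 0 < ‖z‖ := norm_pos_iff.mpr hz0
      have := Real.log_neg h2 h1
      linarith
    have h1 := hΦc _ hτ
    have h2 : Complex.exp (I * (-I * Complex.log z)) = z := by
      have : I * (-I * Complex.log z) = Complex.log z := by
        linear_combination (-Complex.log z) * Complex.I_sq
      rw [this, Complex.exp_log hz0]
    simp only [hΦ, h2] at h1
    exact h1
  have h0c : φ 0 = 0 := by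
    have h0mem : (0:ℂ) ∈ Metric.ball (0:ℂ) 1 := by simp
    have hcont : ContinuousAt φ 0 :=
      (hφ.differentiableAt (Metric.isOpen_ball.mem_nhds h0mem)).continuousAt
    have t1 : Tendsto φ (𝓝[≠] 0) (𝓝 (φ 0)) := hcont.tendsto.mono_left nhdsWithin_le_nhds
    have t2 : Tendsto (fun z => c * z) (𝓝[≠] (0:ℂ)) (𝓝 (c * 0)) := by
      apply Tendsto.mono_left _ nhdsWithin_le_nhds
      exact (continuous_const.mul continuous_id).tendsto 0
    have t3 : Tendsto φ (𝓝[≠] 0) (𝓝 (c * 0)) := by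
      apply t2.congr'
      have hmem : Metric.ball (0:ℂ) 1 ∈ 𝓝[≠] (0:ℂ) :=
        mem_nhdsWithin_of_mem_nhds (Metric.ball_mem_nhds 0 one_pos)
      filter_upwards [hmem, self_mem_nhdsWithin] with z hz1 hz2
      exact (hzc z hz1 hz2).symm
    have := tendsto_nhds_unique t1 t3
    simpa using this
  have hempty : FJ Φ 1 = ∅ := by
    rw [Set.eq_empty_iff_forall_notMem]
    rintro x ⟨η, hη⟩
    apply hrot
    refine ⟨c, ?_, ?_⟩
    · have hnorm : ∀ y : ℝ, 0 < y → ‖Φ (x + y * I)‖ = ‖c‖ * Real.exp (-y) := by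
        intro y hy
        rw [hΦc _ (mem_HH_add hy), norm_mul, Complex.norm_exp]
        congr 2
        simp
      have c1 : Continuous (fun y : ℝ => ‖c‖ * Real.exp (-y)) := by fun_prop
      have t1 := (c1.tendsto 0).mono_left (nhdsWithin_le_nhds (s := Set.Ioi (0:ℝ)))
      simp only [neg_zero, Real.exp_zero, mul_one] at t1
      apply le_antisymm
      · apply le_of_tendsto t1
        filter_upwards [self_mem_nhdsWithin] with y hy
        rw [← hnorm y hy]
        exact (hb _ (mem_HH_add hy)).le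
      · have c2 : Continuous (fun y : ℝ => 1 - y) := by fun_prop
        have t2 := (c2.tendsto 0).mono_left (nhdsWithin_le_nhds (s := Set.Ioi (0:ℝ)))
        rw [sub_zero] at t2
        apply le_of_tendsto_of_tendsto t2 t1
        filter_upwards [self_mem_nhdsWithin] with y hy
        rw [← hnorm y hy]
        have := JL_radial' hb zero_le_one hη (y := y) hy
        linarith
    · intro z hz
      by_cases hz0 : z = 0
      · rw [hz0, h0c, mul_zero]
      · exact hzc z hz hz0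
  rw [hempty]
  simp

lemma tendsto_B {Φ : ℂ → ℂ} (hd : DifferentiableOn ℂ Φ HH) (hb : ∀ τ ∈ HH, ‖Φ τ‖ < 1)
    (hG : volume (FJ Φ 1 \ ⋃ m : ℕ, FJ Φ (1 - 1 / ((m : ℝ) + 2))) = 0) {T : ℝ}
    {h : ℝ → ℂ} (hh : ContinuousOn h (FJ Φ 1)) (hC : ∀ x ∈ FJ Φ 1, ‖h x‖ ≤ 1) :
    Tendsto (fun n : ℕ => ∫ x in FJ Φ 1 ∩ Ioc 0 T, (uu Φ x) ^ n * h x) atTop (𝓝 0) := by
  have hlam0 : ∀ m : ℕ, 0 ≤ 1 - 1 / ((m : ℝ) + 2) := by
    intro m
    have : (1:ℝ) / ((m : ℝ) + 2) ≤ 1 := by
      rw [div_le_one (by positivity)]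
      have : (0:ℝ) ≤ m := Nat.cast_nonneg m
      linarith
    linarith
  have hlam1 : ∀ m : ℕ, 1 - 1 / ((m : ℝ) + 2) < 1 := by
    intro m
    have : 0 < (1:ℝ) / ((m : ℝ) + 2) := by positivity
    linarith
  have hF1 : MeasurableSet (FJ Φ 1) := (isClosed_FJ hd hb zero_le_one).measurableSet
  have hFm : ∀ m : ℕ, MeasurableSet (FJ Φ (1 - 1 / ((m : ℝ) + 2))) :=
    fun m => (isClosed_FJ hd hb (hlam0 m)).measurableSet
  set R : ℕ → Set ℝ := fun m => (FJ Φ 1 ∩ Ioc 0 T) \ FJ Φ (1 - 1 / ((m : ℝ) + 2)) with hR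
  have hRm : ∀ m, MeasurableSet (R m) := fun m => (hF1.inter measurableSet_Ioc).diff (hFm m)
  have hRfin : ∀ m, volume (R m) ≠ ⊤ := fun m =>
    ((measure_mono (Set.sdiff_subset.trans Set.inter_subset_right)).trans_lt
      measure_Ioc_lt_top).ne
  have hRlim : Tendsto (fun m => volume (R m)) atTop (𝓝 0) := by
    have t : Tendsto (fun m => volume (R m)) atTop (𝓝 (volume (⋂ m, R m))) := by
      apply tendsto_measure_iInter_atTop
      · intro m; exact (hRm m).nullMeasurableSet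
      · intro a b hab x hx
        refine ⟨hx.1, fun h => hx.2 (FJ_mono hb ?_ h)⟩
        have : 1 / ((b : ℝ) + 2) ≤ 1 / ((a : ℝ) + 2) := by
          apply one_div_le_one_div_of_le (by positivity)
          have : (a:ℝ) ≤ b := by exact_mod_cast hab
          linarith
        linarith
      · exact ⟨0, hRfin 0⟩
    have e : volume (⋂ m, R m) = 0 := by
      refine measure_mono_null ?_ hG
      intro x hx
      rw [Set.mem_iInter] at hx
      refine ⟨(hx 0).1.1, fun h => ?_⟩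
      rw [Set.mem_iUnion] at h
      obtain ⟨m, hm⟩ := h
      exact (hx m).2 hm
    rwa [e] at t
  rw [Metric.tendsto_atTop]
  intro ε hε
  obtain ⟨m, hm⟩ : ∃ m, (volume (R m)).toReal < ε / 2 := by
    have t := (ENNReal.tendsto_toReal ENNReal.zero_ne_top).comp hRlim
    have := t.eventually (gt_mem_nhds (show (0 : ENNReal).toReal < ε / 2 by
      simpa using (half_pos hε)))
    exact this.exists
  have hosc := osc_F hd hb (hlam0 m) (hlam1 m) hh hC (Nat.ceil (T * ((m:ℝ) + 2))) 0 T (by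
    have h1 := Nat.le_ceil (T * ((m:ℝ) + 2))
    have h2 : 1 - (1 - 1 / ((m : ℝ) + 2)) = 1 / ((m:ℝ) + 2) := by ring
    rw [h2, mul_one_div, le_div_iff₀ (by positivity)]
    linarith)
  rw [Metric.tendsto_atTop] at hosc
  obtain ⟨N, hN⟩ := hosc (ε / 2) (half_pos hε)
  refine ⟨N, fun n hn => ?_⟩
  have h1 := hN n hn
  rw [dist_zero_right] at h1 ⊢
  have hfin : volume (FJ Φ 1 ∩ Ioc 0 T) ≠ ⊤ :=
    ((measure_mono Set.inter_subset_right).trans_lt measure_Ioc_lt_top).ne
  have hint : IntegrableOn (fun x => (uu Φ x) ^ n * h x) (FJ Φ 1 ∩ Ioc 0 T) :=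
    integrableOn_uu hb hh hC (hF1.inter measurableSet_Ioc) hfin Set.inter_subset_left n
  have e1 := integral_inter_add_sdiff (hFm m) hint
  have e2 : FJ Φ 1 ∩ Ioc 0 T ∩ FJ Φ (1 - 1 / ((m : ℝ) + 2)) =
      FJ Φ (1 - 1 / ((m : ℝ) + 2)) ∩ Ioc 0 T := by
    ext x
    constructor
    · rintro ⟨⟨_, b⟩, c⟩
      exact ⟨c, b⟩
    · rintro ⟨a, b⟩
      exact ⟨⟨FJ_mono hb (hlam1 m).le a, b⟩, a⟩
  rw [e2] at e1
  rw [← e1]
  have h2 : ‖∫ x in (FJ Φ 1 ∩ Ioc 0 T) \ FJ Φ (1 - 1 / ((m : ℝ) + 2)), (uu Φ x) ^ n * h x‖ ≤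
      1 * (volume (R m)).toReal := by
    apply norm_setIntegral_le_of_norm_le_const (lt_top_iff_ne_top.mpr (hRfin m))
    intro x hx
    rw [norm_mul, norm_pow, norm_uu, one_pow, one_mul]
    exact hC x hx.1.1
  refine (norm_add_le _ _).trans_lt ?_
  linarith

theorem main {φ : ℂ → ℂ} (hφ : DifferentiableOn ℂ φ (Metric.ball (0 : ℂ) 1))
    (hm : Set.MapsTo φ (Metric.ball (0 : ℂ) 1) (Metric.ball (0 : ℂ) 1))
    (hrot : ¬ ∃ c : ℂ, ‖c‖ = 1 ∧ ∀ z ∈ Metric.ball (0 : ℂ) 1, φ z = c * z) (j k : ℕ) :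
    Tendsto (fun n : ℕ =>
      iteratedDeriv (n + k) (fun z => φ z ^ (n + j)) 0 / ((n + k).factorial : ℂ)) atTop (𝓝 0) := by
  set Φ : ℂ → ℂ := fun τ => φ (Complex.exp (I * τ)) with hΦ
  have hd : DifferentiableOn ℂ Φ HH := differentiableOn_Phi hφ
  have hb : ∀ τ ∈ HH, ‖Φ τ‖ < 1 := by
    intro τ hτ
    simpa using hm (exp_I_mem_ball hτ)
  have hG := null_G' hφ hm hrot
  set h : ℂ → ℂ := fun τ => Φ τ ^ j * Complex.exp (-(I * τ)) ^ k with hh
  set h₀ : ℝ → ℂ := fun x => eta Φ x ^ j * Complex.exp (I * ((-x : ℝ) : ℂ)) ^ k with hh₀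
  have hhd : DifferentiableOn ℂ h HH := by
    apply (hd.pow j).mul
    apply DifferentiableOn.pow
    fun_prop
  have hhC : ∀ τ ∈ HH, τ.im ≤ 1 → ‖h τ‖ ≤ Real.exp 1 ^ k := by
    intro τ hτ hτ1
    rw [hh, norm_mul, norm_pow, norm_pow, norm_exp_negI]
    have h1 : ‖Φ τ‖ ^ j ≤ 1 := pow_le_one₀ (norm_nonneg _) (hb τ hτ).le
    have h2 : Real.exp τ.im ^ k ≤ Real.exp 1 ^ k :=
      pow_le_pow_left₀ (Real.exp_pos _).le (Real.exp_le_exp.mpr hτ1) k
    calc ‖Φ τ‖ ^ j * Real.exp τ.im ^ k ≤ 1 * Real.exp 1 ^ k :=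
          mul_le_mul h1 h2 (by positivity) zero_le_one
      _ = Real.exp 1 ^ k := one_mul _
  have hh0lim : ∀ x ∈ FJ Φ 1, Tendsto (fun y : ℝ => h (x + y * I)) (𝓝[>] 0) (𝓝 (h₀ x)) := by
    intro x hx
    apply ((tendsto_radial hb hx).pow j).mul
    apply Tendsto.pow
    have c : Continuous (fun y : ℝ => Complex.exp (-(I * (x + y * I)))) := by fun_prop
    have := (c.tendsto 0).mono_left (nhdsWithin_le_nhds (s := Set.Ioi (0:ℝ)))
    simpa using this
  set a : ℕ → ℂ := fun n =>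
    iteratedDeriv (n + k) (fun z => φ z ^ (n + j)) 0 / ((n + k).factorial : ℂ) with ha
  have hA : ∀ n, ∀ y ∈ Ioc (0:ℝ) 1,
      ∫ x in (0:ℝ)..(2 * π), (UU Φ (x + y * I)) ^ n * h (x + y * I) = 2 * π * a n := by
    intro n y hy
    have hr : 0 < Real.exp (-y) := Real.exp_pos _
    have hr1 : Real.exp (-y) < 1 := by
      rw [Real.exp_lt_one_iff]; linarith [hy.1]
    have hdf : DifferentiableOn ℂ (fun z => φ z ^ (n + j)) (Metric.closedBall 0 (Real.exp (-y))) := by
      apply DifferentiableOn.pow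
      apply hφ.mono
      exact Metric.closedBall_subset_ball hr1
    have hci := hdf.circleIntegral_one_div_sub_center_pow_smul hr (n + k)
    rw [circleIntegral] at hci
    have e1 : ∀ θ : ℝ, deriv (circleMap 0 (Real.exp (-y))) θ •
        (1 / (circleMap 0 (Real.exp (-y)) θ - 0) ^ (n + k + 1)) •
          φ (circleMap 0 (Real.exp (-y)) θ) ^ (n + j) =
        I * ((UU Φ (θ + y * I)) ^ n * h (θ + y * I)) := by
      intro θ
      have hz : circleMap 0 (Real.exp (-y)) θ = Complex.exp (I * (θ + y * I)) := by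
        rw [circleMap, zero_add, Complex.ofReal_exp, ← Complex.exp_add]
        congr 1
        push_cast
        linear_combination (-(y:ℂ)) * Complex.I_sq
      have hz0 : Complex.exp (I * (θ + y * I)) ≠ 0 := Complex.exp_ne_zero _
      rw [deriv_circleMap, hz, sub_zero, smul_eq_mul, smul_eq_mul]
      simp only [UU, hh, hΦ, Complex.exp_neg]
      generalize Complex.exp (I * (θ + y * I)) = E at hz0
      rw [mul_pow, inv_pow, inv_pow, pow_add, pow_add, pow_add, pow_one]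
      have p1 : E ^ n ≠ 0 := pow_ne_zero n hz0
      have p2 : E ^ k ≠ 0 := pow_ne_zero k hz0
      field_simp
    simp only [e1] at hci
    rw [intervalIntegral.integral_const_mul, smul_eq_mul] at hci
    have hI : (I : ℂ) ≠ 0 := Complex.I_ne_zero
    have e2 : I * ∫ x in (0:ℝ)..(2 * π), (UU Φ (x + y * I)) ^ n * h (x + y * I) =
        I * (2 * π * a n) := by
      rw [hci, ha]
      ring
    exact mul_left_cancel₀ hI e2
  have h1 := reduct hd hb hhd hhC hh0lim (T := 2 * π) (by positivity) hA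
  have h2 : Tendsto (fun n : ℕ => ∫ x in FJ Φ 1 ∩ Ioc 0 (2 * π), (uu Φ x) ^ n * h₀ x) atTop
      (𝓝 0) := by
    apply tendsto_B hd hb hG
    · apply ((continuousOn_eta hb).pow j).mul
      apply Continuous.continuousOn
      fun_prop
    · intro x _
      rw [hh₀, norm_mul, norm_pow, norm_pow, norm_eta, Complex.norm_exp_I_mul_ofReal]
      simp
  have h3 := h1.add h2
  rw [add_zero] at h3
  have h4 : Tendsto (fun n => 2 * π * a n) atTop (𝓝 0) := by
    refine h3.congr fun n => ?_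
    ring
  have h5 := h4.const_mul (2 * π : ℂ)⁻¹
  rw [mul_zero] at h5
  refine h5.congr fun n => ?_
  have : (2 * π : ℂ) ≠ 0 := by
    have := Real.pi_ne_zero
    simp [this]
  field_simp

end Pool.Agent.Lib.MP_ffb813_an
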