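import Pool.Agent.Lib.MP_ffb813_an.Poisson

set_option autoImplicit false

open Complex MeasureTheory Set Filter Topology
open scoped ComplexConjugate Real NNReal

namespace Pool.Agent.Lib.MP_ffb813_an

/-- Analytic function whose real part is the harmonic measure. -/
noncomputable def F0 (A : Set ℝ) (τ : ℂ) : ℂ := (π * I)⁻¹ * ∫ t in A, ((t : ℂ) - τ)⁻¹

lemma norm_inv_le {τ : ℂ} (hτ : τ ∈ HH) (t : ℝ) : ‖((t : ℂ) - τ)⁻¹‖ ≤ τ.im⁻¹ := by
  rw [norm_inv]
  apply inv_anti₀ hτ
  have := Complex.abs_im_le_norm ((t : ℂ) - τ)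
  simp only [sub_im, ofReal_im, zero_sub, abs_neg] at this
  exact (le_abs_self _).trans this

lemma ofReal_sub_ne {τ : ℂ} (hτ : τ ∈ HH) (t : ℝ) : (t : ℂ) - τ ≠ 0 := by
  intro h
  have h1 : ((t : ℂ) - τ).im = 0 := by rw [h]; simp
  simp only [sub_im, ofReal_im, zero_sub] at h1
  have h2 : 0 < τ.im := hτ
  linarith

lemma cont_inv {τ : ℂ} (hτ : τ ∈ HH) : Continuous (fun t : ℝ => ((t : ℂ) - τ)⁻¹) :=
  Continuous.inv₀ (by fun_prop) (ofReal_sub_ne hτ)

lemma integrableOn_inv {A : Set ℝ} (hfin : volume A ≠ ⊤) {τ : ℂ} (hτ : τ ∈ HH) :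
    IntegrableOn (fun t : ℝ => ((t : ℂ) - τ)⁻¹) A := by
  have : IsFiniteMeasure (volume.restrict A) := isFiniteMeasure_restrict.mpr hfin
  apply Integrable.of_bound (C := τ.im⁻¹)
  · exact (cont_inv hτ).aestronglyMeasurable
  · exact Eventually.of_forall (norm_inv_le hτ)

lemma F0_re {A : Set ℝ} (hfin : volume A ≠ ⊤) {τ : ℂ} (hτ : τ ∈ HH) :
    (F0 A τ).re = om A τ.re τ.im := by
  have hy : 0 < τ.im := hτ
  have h1 : (F0 A τ) = ∫ t in A, (π * I)⁻¹ * ((t : ℂ) - τ)⁻¹ := by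
    rw [F0, integral_const_mul]
  rw [h1, om]
  have hint : Integrable (fun t : ℝ => (π * I)⁻¹ * ((t : ℂ) - τ)⁻¹) (volume.restrict A) :=
    (integrableOn_inv hfin hτ).const_mul _
  have h2 := (Complex.reCLM.integral_comp_comm hint).symm
  simp only [Complex.reCLM_apply] at h2
  rw [h2]
  apply integral_congr_ae
  apply Eventually.of_forall
  intro t
  simp only
  rw [PK_eq hy]
  have hpi := Real.pi_pos
  have e1 : (π * I : ℂ)⁻¹ = ((π⁻¹ : ℝ) : ℂ) * (-I) := by
    rw [mul_inv, Complex.inv_I]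
    push_cast
    ring
  rw [e1, mul_assoc, Complex.re_ofReal_mul]
  congr 1
  simp only [neg_mul, neg_re, mul_re, I_re, zero_mul, I_im, one_mul, zero_sub, neg_neg,
    Complex.inv_im, sub_im, ofReal_im, normSq_apply, sub_re, ofReal_re]
  ring_nf

lemma F0_differentiableOn {A : Set ℝ} (hfin : volume A ≠ ⊤) :
    DifferentiableOn ℂ (F0 A) HH := by
  intro τ₀ hτ₀
  have hy : 0 < τ₀.im := hτ₀
  apply DifferentiableAt.differentiableWithinAt
  unfold F0
  apply DifferentiableAt.const_mul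
  have hfm : IsFiniteMeasure (volume.restrict A) := isFiniteMeasure_restrict.mpr hfin
  have hball : ∀ z ∈ Metric.ball τ₀ (τ₀.im / 2), z ∈ HH ∧ τ₀.im / 2 ≤ z.im := by
    intro z hz
    rw [mem_ball_iff_norm] at hz
    have := Complex.abs_im_le_norm (z - τ₀)
    rw [sub_im] at this
    have := (abs_le.mp (this.trans hz.le)).1
    refine ⟨?_, by linarith⟩
    show 0 < z.im
    linarith
  have key := hasDerivAt_integral_of_dominated_loc_of_deriv_le (μ := volume.restrict A)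
    (F := fun (z : ℂ) (t : ℝ) => ((t : ℂ) - z)⁻¹) (F' := fun z t => -(-1) / ((t : ℂ) - z) ^ 2)
    (x₀ := τ₀) (s := Metric.ball τ₀ (τ₀.im / 2)) (bound := fun _ => (τ₀.im / 2)⁻¹ ^ 2)
    (Metric.ball_mem_nhds _ (by positivity)) ?_ ?_ ?_ ?_ ?_ ?_
  · exact key.2.differentiableAt
  · filter_upwards [Metric.ball_mem_nhds τ₀ (show 0 < τ₀.im / 2 by positivity)] with z hz
    exact (cont_inv (hball z hz).1).aestronglyMeasurable
  · exact integrableOn_inv hfin hτ₀
  · apply Continuous.aestronglyMeasurable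
    apply Continuous.div (by fun_prop) (by fun_prop)
    intro t
    exact pow_ne_zero 2 (ofReal_sub_ne hτ₀ t)
  · apply Eventually.of_forall
    intro t z hz
    obtain ⟨h1, h2⟩ := hball z hz
    have h3 := norm_inv_le h1 t
    rw [neg_neg, one_div, norm_inv, norm_pow, ← inv_pow, ← norm_inv]
    apply pow_le_pow_left₀ (norm_nonneg _)
    refine h3.trans ?_
    exact inv_anti₀ (by positivity) h2
  · exact integrable_const _
  · apply Eventually.of_forall
    intro t z hz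
    obtain ⟨h1, h2⟩ := hball z hz
    have := HasDerivAt.inv ((hasDerivAt_id z).const_sub (t : ℂ)) (ofReal_sub_ne h1 t)
    exact this

end Pool.Agent.Lib.MP_ffb813_an
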