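import Pool.Agent.Lib.MP_ffb813_an.SP2

set_option autoImplicit false

open Complex MeasureTheory Set Filter Topology
open scoped ComplexConjugate Real

namespace Pool.Agent.Lib.MP_ffb813_an

/-- Julia inequality at the real boundary point `x` with constant `lam` and boundary value `η`. -/
def JL (Φ : ℂ → ℂ) (lam : ℝ) (x : ℝ) (η : ℂ) : Prop :=
  ‖η‖ = 1 ∧ ∀ τ : ℂ, τ ∈ HH →
    2 * τ.im * ‖η - Φ τ‖ ^ 2 ≤ lam * (1 - ‖Φ τ‖ ^ 2) * ‖τ - x‖ ^ 2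

/-- Set of real points where Julia's inequality holds with constant `lam`. -/
def FJ (Φ : ℂ → ℂ) (lam : ℝ) : Set ℝ := {x | ∃ η, JL Φ lam x η}

lemma mem_HH_add {x y : ℝ} (hy : 0 < y) : (x + y * I : ℂ) ∈ HH := by
  simp [HH, hy]

lemma JL_radial {Φ : ℂ → ℂ} (hb : ∀ τ ∈ HH, ‖Φ τ‖ < 1) {lam x : ℝ} {η : ℂ} (hl : 0 ≤ lam)
    (h : JL Φ lam x η) {y : ℝ} (hy : 0 < y) : ‖η - Φ (x + y * I)‖ ≤ lam * y := by
  have h1 := h.2 _ (mem_HH_add (x := x) hy)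
  have hbb := hb _ (mem_HH_add (x := x) hy)
  set v := Φ (x + y * I) with hv
  have e1 : ((x : ℂ) + y * I).im = y := by simp
  have e2 : ‖((x : ℂ) + y * I) - x‖ = y := by
    simp [abs_of_pos hy]
  rw [e1, e2] at h1
  have h2 : 1 - ‖v‖ ≤ ‖η - v‖ := by
    have := norm_sub_norm_le η v
    rw [h.1] at this
    exact this
  have h3 : 0 ≤ ‖v‖ := norm_nonneg _
  have h4 : 0 ≤ ‖η - v‖ := norm_nonneg _
  by_contra hcon
  push Not at hcon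
  have h5 : 0 < ‖η - v‖ := lt_of_le_of_lt (by positivity) hcon
  have h6 : 2 * y * ‖η - v‖ ^ 2 ≤ lam * (2 * ‖η - v‖) * y ^ 2 := by
    refine h1.trans ?_
    apply mul_le_mul_of_nonneg_right _ (by positivity)
    apply mul_le_mul_of_nonneg_left _ hl
    nlinarith
  have h7 : 2 * y * ‖η - v‖ * (‖η - v‖ - lam * y) ≤ 0 := by nlinarith
  have h8 : 0 < 2 * y * ‖η - v‖ * (‖η - v‖ - lam * y) := by
    apply mul_pos (by positivity)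
    linarith
  linarith

lemma JL_radial' {Φ : ℂ → ℂ} (hb : ∀ τ ∈ HH, ‖Φ τ‖ < 1) {lam x : ℝ} {η : ℂ} (hl : 0 ≤ lam)
    (h : JL Φ lam x η) {y : ℝ} (hy : 0 < y) : 1 - ‖Φ (x + y * I)‖ ≤ lam * y := by
  have := JL_radial hb hl h hy
  have h2 := norm_sub_norm_le η (Φ (x + y * I))
  rw [h.1] at h2
  linarith

lemma JL_radial'' {Φ : ℂ → ℂ} (hb : ∀ τ ∈ HH, ‖Φ τ‖ < 1) {lam x : ℝ} {η : ℂ} (hl : 0 ≤ lam)
    (h : JL Φ lam x η) {y : ℝ} (hy : 0 < y) : 1 - ‖Φ (x + y * I)‖ ^ 2 ≤ 2 * lam * y := by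
  have h1 := JL_radial' hb hl h hy
  have h2 := hb _ (mem_HH_add (x := x) hy)
  have h3 : 0 ≤ ‖Φ (x + y * I)‖ := norm_nonneg _
  nlinarith [mul_nonneg hl hy.le]

lemma JL_mono {Φ : ℂ → ℂ} (hb : ∀ τ ∈ HH, ‖Φ τ‖ < 1) {l₁ l₂ x : ℝ} {η : ℂ} (hl : l₁ ≤ l₂)
    (h : JL Φ l₁ x η) : JL Φ l₂ x η := by
  refine ⟨h.1, fun τ hτ => (h.2 τ hτ).trans ?_⟩
  have h2 := hb τ hτ
  have h3 : 0 ≤ ‖Φ τ‖ := norm_nonneg _
  apply mul_le_mul_of_nonneg_right _ (by positivity)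
  apply mul_le_mul_of_nonneg_right hl
  nlinarith

lemma FJ_mono {Φ : ℂ → ℂ} (hb : ∀ τ ∈ HH, ‖Φ τ‖ < 1) {l₁ l₂ : ℝ} (hl : l₁ ≤ l₂) :
    FJ Φ l₁ ⊆ FJ Φ l₂ := fun _ ⟨η, h⟩ => ⟨η, JL_mono hb hl h⟩

/-- Two point Julia inequality. -/
lemma two_point {Φ : ℂ → ℂ} (hb : ∀ τ ∈ HH, ‖Φ τ‖ < 1) {l₁ l₂ x₁ x₂ : ℝ} {η₁ η₂ : ℂ}
    (hl₁ : 0 ≤ l₁) (hl₂ : 0 ≤ l₂) (h₁ : JL Φ l₁ x₁ η₁) (h₂ : JL Φ l₂ x₂ η₂) :
    ‖η₁ - η₂‖ ^ 2 ≤ l₁ * l₂ * (x₁ - x₂) ^ 2 := by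
  have key : ∀ y : ℝ, 0 < y → (‖η₁ - η₂‖ - l₂ * y) ≤ √(l₁ * l₂ * ((x₁ - x₂) ^ 2 + y ^ 2)) := by
    intro y hy
    have a1 := h₁.2 _ (mem_HH_add (x := x₂) hy)
    have a2 := JL_radial'' hb hl₂ h₂ hy
    have a3 := JL_radial hb hl₂ h₂ hy
    set v := Φ (x₂ + y * I) with hv
    have e1 : ((x₂ : ℂ) + y * I).im = y := by simp
    have e2 : ‖((x₂ : ℂ) + y * I) - x₁‖ ^ 2 = (x₁ - x₂) ^ 2 + y ^ 2 := by
      rw [← Complex.normSq_eq_norm_sq]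
      simp [normSq_apply]
      ring
    rw [e1, e2] at a1
    have a4 : ‖η₁ - η₂‖ ≤ ‖η₁ - v‖ + ‖η₂ - v‖ := by
      have : η₁ - η₂ = (η₁ - v) - (η₂ - v) := by ring
      rw [this]
      exact norm_sub_le _ _
    have a5 : ‖η₁ - v‖ ^ 2 ≤ l₁ * l₂ * ((x₁ - x₂) ^ 2 + y ^ 2) := by
      have : 2 * y * ‖η₁ - v‖ ^ 2 ≤ 2 * y * (l₁ * l₂ * ((x₁ - x₂) ^ 2 + y ^ 2)) := by
        refine a1.trans ?_
        have : l₁ * (1 - ‖v‖ ^ 2) * ((x₁ - x₂) ^ 2 + y ^ 2) ≤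
            l₁ * (2 * l₂ * y) * ((x₁ - x₂) ^ 2 + y ^ 2) := by
          apply mul_le_mul_of_nonneg_right _ (by positivity)
          exact mul_le_mul_of_nonneg_left a2 hl₁
        linarith
      exact le_of_mul_le_mul_left this (by positivity)
    have a6 : ‖η₁ - v‖ ≤ √(l₁ * l₂ * ((x₁ - x₂) ^ 2 + y ^ 2)) := by
      apply Real.le_sqrt_of_sq_le a5
    linarith
  have c1 : ContinuousAt (fun y : ℝ => ‖η₁ - η₂‖ - l₂ * y) 0 := by fun_prop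
  have c2 : ContinuousAt (fun y : ℝ => √(l₁ * l₂ * ((x₁ - x₂) ^ 2 + y ^ 2))) 0 := by fun_prop
  have t1 := c1.tendsto.mono_left (nhdsWithin_le_nhds (s := Set.Ioi (0:ℝ)))
  have t2 := c2.tendsto.mono_left (nhdsWithin_le_nhds (s := Set.Ioi (0:ℝ)))
  have h3 := le_of_tendsto_of_tendsto t1 t2 (eventually_nhdsWithin_of_forall fun y hy => key y hy)
  simp only [mul_zero, sub_zero, ne_eq, OfNat.ofNat_ne_zero, not_false_eq_true, zero_pow,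
    add_zero] at h3
  have h4 : ‖η₁ - η₂‖ ^ 2 ≤ √(l₁ * l₂ * (x₁ - x₂) ^ 2) ^ 2 :=
    pow_le_pow_left₀ (norm_nonneg _) h3 2
  rwa [Real.sq_sqrt (by positivity)] at h4

lemma JL_unique {Φ : ℂ → ℂ} (hb : ∀ τ ∈ HH, ‖Φ τ‖ < 1) {l₁ l₂ x : ℝ} {η₁ η₂ : ℂ}
    (hl₁ : 0 ≤ l₁) (hl₂ : 0 ≤ l₂) (h₁ : JL Φ l₁ x η₁) (h₂ : JL Φ l₂ x η₂) : η₁ = η₂ := by
  have := two_point hb hl₁ hl₂ h₁ h₂
  simp only [sub_self, ne_eq, OfNat.ofNat_ne_zero, not_false_eq_true, zero_pow, mul_zero] at this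
  have h3 : ‖η₁ - η₂‖ = 0 := by
    have := norm_nonneg (η₁ - η₂)
    nlinarith
  rwa [norm_eq_zero, sub_eq_zero] at h3

/-- Julia's lemma: a point that is a limit of points with `1 - ‖Φ‖² ≤ 2 lam Im` lies in `FJ`. -/
lemma mem_FJ_of_frequently {Φ : ℂ → ℂ} (hd : DifferentiableOn ℂ Φ HH)
    (hb : ∀ τ ∈ HH, ‖Φ τ‖ < 1) {lam x : ℝ}
    (h : ∀ δ > 0, ∃ τ ∈ HH, ‖τ - x‖ < δ ∧ 1 - ‖Φ τ‖ ^ 2 ≤ 2 * lam * τ.im) :
    x ∈ FJ Φ lam := by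
  have h' : ∀ n : ℕ, ∃ τ ∈ HH, ‖τ - x‖ < 1 / ((n : ℝ) + 1) ∧ 1 - ‖Φ τ‖ ^ 2 ≤ 2 * lam * τ.im :=
    fun n => h _ (by positivity)
  choose t ht1 ht2 ht3 using h'
  have hcomp : IsCompact (Metric.closedBall (0:ℂ) 1) := isCompact_closedBall _ _
  obtain ⟨η, hη, φ, hφ, hlim⟩ := hcomp.tendsto_subseq (x := fun n => Φ (t n))
    (fun n => by simpa using (hb _ (ht1 n)).le)
  have ht : Tendsto t atTop (𝓝 (x : ℂ)) := by
    rw [tendsto_iff_norm_sub_tendsto_zero]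
    refine squeeze_zero (fun n => norm_nonneg _) (fun n => (ht2 n).le) ?_
    exact tendsto_one_div_add_atTop_nhds_zero_nat
  have htφ : Tendsto (fun n => t (φ n)) atTop (𝓝 (x : ℂ)) := ht.comp hφ.tendsto_atTop
  have him : Tendsto (fun n => (t (φ n)).im) atTop (𝓝 0) := by
    have := (Complex.continuous_im.tendsto (x : ℂ)).comp htφ
    simpa [Function.comp_def] using this
  have hη1 : ‖η‖ = 1 := by
    have l1 : Tendsto (fun n => ‖Φ (t (φ n))‖) atTop (𝓝 ‖η‖) := hlim.norm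
    have l2 : ‖η‖ ≤ 1 := by simpa using hη
    have l3 : 1 ≤ ‖η‖ ^ 2 := by
      have a1 : Tendsto (fun n => 1 - ‖Φ (t (φ n))‖ ^ 2) atTop (𝓝 (1 - ‖η‖ ^ 2)) :=
        (l1.pow 2).const_sub 1
      have a2 : Tendsto (fun n => 2 * lam * (t (φ n)).im) atTop (𝓝 (2 * lam * 0)) :=
        him.const_mul _
      have := le_of_tendsto_of_tendsto' a1 a2 (fun n => ht3 (φ n))
      linarith
    nlinarith [norm_nonneg η]
  refine ⟨η, hη1, fun τ hτ => ?_⟩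
  have hn : ∀ n, 2 * τ.im * ‖1 - conj (Φ (t n)) * Φ τ‖ ^ 2 ≤
      lam * (1 - ‖Φ τ‖ ^ 2) * ‖τ - conj (t n)‖ ^ 2 := by
    intro n
    have sp := schwarz_pick hd hb (ht1 n) hτ
    have hpos : 0 < (t n).im := ht1 n
    have hτ2 : 0 ≤ 1 - ‖Φ τ‖ ^ 2 := by
      have := hb τ hτ
      nlinarith [norm_nonneg (Φ τ)]
    have step : (1 - ‖Φ (t n)‖ ^ 2) * (1 - ‖Φ τ‖ ^ 2) * ‖τ - conj (t n)‖ ^ 2 ≤
        (2 * lam * (t n).im) * (1 - ‖Φ τ‖ ^ 2) * ‖τ - conj (t n)‖ ^ 2 := by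
      apply mul_le_mul_of_nonneg_right _ (by positivity)
      exact mul_le_mul_of_nonneg_right (ht3 n) hτ2
    have : 2 * (t n).im * (2 * τ.im * ‖1 - conj (Φ (t n)) * Φ τ‖ ^ 2) ≤
        2 * (t n).im * (lam * (1 - ‖Φ τ‖ ^ 2) * ‖τ - conj (t n)‖ ^ 2) := by
      nlinarith
    exact le_of_mul_le_mul_left this (by positivity)
  have l1 : Tendsto (fun n => 2 * τ.im * ‖1 - conj (Φ (t (φ n))) * Φ τ‖ ^ 2) atTop
      (𝓝 (2 * τ.im * ‖1 - conj η * Φ τ‖ ^ 2)) := by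
    apply Tendsto.const_mul
    apply Tendsto.pow
    apply Tendsto.norm
    apply Tendsto.const_sub
    apply Tendsto.mul_const
    exact (Complex.continuous_conj.tendsto η).comp hlim
  have l2 : Tendsto (fun n => lam * (1 - ‖Φ τ‖ ^ 2) * ‖τ - conj (t (φ n))‖ ^ 2) atTop
      (𝓝 (lam * (1 - ‖Φ τ‖ ^ 2) * ‖τ - conj (x:ℂ)‖ ^ 2)) := by
    apply Tendsto.const_mul
    apply Tendsto.pow
    apply Tendsto.norm
    apply Tendsto.const_sub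
    exact (Complex.continuous_conj.tendsto (x:ℂ)).comp htφ
  have h3 := le_of_tendsto_of_tendsto' l1 l2 (fun n => hn (φ n))
  rw [Complex.conj_ofReal] at h3
  have e1 : ‖1 - conj η * Φ τ‖ = ‖η - Φ τ‖ := by
    have : η - Φ τ = η * (1 - conj η * Φ τ) := by
      have : η * conj η = 1 := by
        rw [Complex.mul_conj, Complex.normSq_eq_norm_sq, hη1]; simp
      linear_combination (Φ τ) * this
    rw [this, norm_mul, hη1, one_mul]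
  rwa [e1] at h3

lemma exists_of_notMem_FJ {Φ : ℂ → ℂ} (hd : DifferentiableOn ℂ Φ HH)
    (hb : ∀ τ ∈ HH, ‖Φ τ‖ < 1) {lam x : ℝ} (h : x ∉ FJ Φ lam) :
    ∃ δ > 0, ∀ τ ∈ HH, ‖τ - x‖ < δ → 2 * lam * τ.im < 1 - ‖Φ τ‖ ^ 2 := by
  by_contra hcon
  push Not at hcon
  exact h (mem_FJ_of_frequently hd hb hcon)

lemma isClosed_FJ {Φ : ℂ → ℂ} (hd : DifferentiableOn ℂ Φ HH)
    (hb : ∀ τ ∈ HH, ‖Φ τ‖ < 1) {lam : ℝ} (hl : 0 ≤ lam) : IsClosed (FJ Φ lam) := by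
  rw [← isOpen_compl_iff, Metric.isOpen_iff]
  intro x hx
  obtain ⟨δ, hδ, h⟩ := exists_of_notMem_FJ hd hb hx
  refine ⟨δ / 2, by positivity, fun x' hx' => ?_⟩
  rintro ⟨η, hη⟩
  have hx'' : |x' - x| < δ / 2 := by simpa [Real.dist_eq] using hx'
  have h1 := JL_radial'' hb hl hη (y := δ / 4) (by positivity)
  have h2 := h _ (mem_HH_add (x := x') (y := δ / 4) (by positivity)) ?_
  · have e1 : ((x' : ℂ) + ((δ / 4 : ℝ) : ℂ) * I).im = δ / 4 := by simp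
    rw [e1] at h2
    linarith
  · have : ((x' : ℂ) + ((δ / 4 : ℝ) : ℂ) * I) - x = ((x' - x : ℝ) : ℂ) + ((δ / 4 : ℝ) : ℂ) * I := by
      push_cast; ring
    rw [this]
    refine (norm_add_le _ _).trans_lt ?_
    rw [norm_mul, Complex.norm_real, Complex.norm_real, Complex.norm_I, mul_one, Real.norm_eq_abs,
      Real.norm_eq_abs, abs_of_pos (show (0:ℝ) < δ / 4 by positivity)]
    linarith

end Pool.Agent.Lib.MP_ffb813_an
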