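import Pool.Agent.Lib.MP_ffb813_an.Privalov

set_option autoImplicit false

open Complex MeasureTheory Set Filter Topology
open scoped ComplexConjugate Real NNReal

namespace Pool.Agent.Lib.MP_ffb813_an

lemma egorov_like {G' : Set ℝ} (hG : MeasurableSet G') (hfin : volume G' ≠ ⊤)
    (hpos : volume G' ≠ 0) {E : ℕ → ℕ → Set ℝ} (hE : ∀ m n, MeasurableSet (E m n))
    (hmono : ∀ m, Monotone (E m)) (hcov : ∀ m, G' ⊆ ⋃ n, E m n) :
    ∃ φ : ℕ → ℕ, volume (G' ∩ ⋂ m, E m (φ m)) ≠ 0 := by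
  obtain ⟨ε', hε', hsum⟩ := ENNReal.exists_pos_sum_of_countable hpos ℕ
  have hex : ∀ m, ∃ n, volume (G' \ E m n) ≤ ε' m := by
    intro m
    have t : Tendsto (fun n => volume (G' \ E m n)) atTop (𝓝 (volume (⋂ n, G' \ E m n))) := by
      apply tendsto_measure_iInter_atTop
      · intro n; exact (hG.diff (hE m n)).nullMeasurableSet
      · intro a b hab x hx
        exact ⟨hx.1, fun h => hx.2 (hmono m hab h)⟩
      · exact ⟨0, ((measure_mono Set.sdiff_subset).trans_lt (lt_top_iff_ne_top.mpr hfin)).ne⟩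
    have e : (⋂ n, G' \ E m n) = ∅ := by
      rw [Set.eq_empty_iff_forall_notMem]
      intro x hx
      rw [Set.mem_iInter] at hx
      have h1 := hcov m (hx 0).1
      rw [Set.mem_iUnion] at h1
      obtain ⟨n, hn⟩ := h1
      exact (hx n).2 hn
    rw [e, measure_empty] at t
    have h2 : ∀ᶠ n in atTop, volume (G' \ E m n) < ε' m :=
      t.eventually (gt_mem_nhds (by exact_mod_cast hε' m))
    obtain ⟨n, hn⟩ := h2.exists
    exact ⟨n, hn.le⟩
  choose φ hφ using hex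
  refine ⟨φ, fun h0 => ?_⟩
  have h1 : volume G' ≤ volume (G' ∩ ⋂ m, E m (φ m)) + volume (G' \ ⋂ m, E m (φ m)) := by
    apply measure_le_inter_add_sdiff
  have h2 : volume (G' \ ⋂ m, E m (φ m)) ≤ ∑' m, volume (G' \ E m (φ m)) := by
    rw [Set.sdiff_iInter]
    exact measure_iUnion_le _
  have h3 : ∑' m, volume (G' \ E m (φ m)) ≤ ∑' m, (ε' m : ENNReal) := ENNReal.tsum_le_tsum hφ
  rw [h0, zero_add] at h1
  exact absurd (h1.trans (h2.trans h3)) (not_le.mpr hsum)

theorem null_G {Φ : ℂ → ℂ} (hd : DifferentiableOn ℂ Φ HH) (hb : ∀ τ ∈ HH, ‖Φ τ‖ < 1)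
    (hne : ¬ ∀ τ ∈ HH, kk Φ τ = 0) :
    volume (FJ Φ 1 \ ⋃ m : ℕ, FJ Φ (1 - 1 / ((m : ℝ) + 2))) = 0 := by
  by_contra hG
  set G := FJ Φ 1 \ ⋃ m : ℕ, FJ Φ (1 - 1 / ((m : ℝ) + 2)) with hGdef
  have hlam0 : ∀ m : ℕ, 0 ≤ 1 - 1 / ((m : ℝ) + 2) := by
    intro m
    have : (1:ℝ) / ((m : ℝ) + 2) ≤ 1 := by
      rw [div_le_one (by positivity)]
      have : (0:ℝ) ≤ m := Nat.cast_nonneg m
      linarith
    linarith
  have hGm : MeasurableSet G := by
    apply (isClosed_FJ hd hb zero_le_one).measurableSet.diff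
    exact MeasurableSet.iUnion fun m => (isClosed_FJ hd hb (hlam0 m)).measurableSet
  -- bounded piece
  obtain ⟨N, hN⟩ : ∃ N : ℕ, volume (G ∩ Icc (-(N:ℝ)) N) ≠ 0 := by
    by_contra hcon
    push Not at hcon
    apply hG
    have : G = ⋃ N : ℕ, G ∩ Icc (-(N:ℝ)) N := by
      rw [← Set.inter_iUnion]
      have : (⋃ N : ℕ, Icc (-(N:ℝ)) N) = Set.univ := by
        rw [Set.eq_univ_iff_forall]
        intro x
        rw [Set.mem_iUnion]
        obtain ⟨n, hn⟩ := exists_nat_ge |x|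
        exact ⟨n, abs_le.mp hn⟩
      rw [this, Set.inter_univ]
    rw [this]
    exact measure_iUnion_null hcon
  set G' := G ∩ Icc (-(N:ℝ)) N with hG'
  have hG'm : MeasurableSet G' := hGm.inter measurableSet_Icc
  have hG'fin : volume G' ≠ ⊤ :=
    ((measure_mono Set.inter_subset_right).trans_lt measure_Icc_lt_top).ne
  set E : ℕ → ℕ → Set ℝ := fun m n => {x | ∀ y ∈ Ioo (0:ℝ) (1 / ((n:ℝ) + 1)),
    2 * (1 - 1 / ((m : ℝ) + 2)) * y ≤ 1 - ‖Φ (x + y * I)‖ ^ 2} with hE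
  have hEm : ∀ m n, MeasurableSet (E m n) := by
    intro m n
    have : IsClosed (E m n) := by
      have he : E m n = ⋂ y ∈ Ioo (0:ℝ) (1 / ((n:ℝ) + 1)),
          {x : ℝ | 2 * (1 - 1 / ((m : ℝ) + 2)) * y ≤ 1 - ‖Φ (x + y * I)‖ ^ 2} := by
        ext x; simp [hE]
      rw [he]
      apply isClosed_biInter
      intro y hy
      apply isClosed_le continuous_const
      apply Continuous.sub continuous_const
      apply Continuous.pow
      apply Continuous.norm
      exact hd.continuousOn.comp_continuous (f := fun x : ℝ => (x + y * I : ℂ)) (by fun_prop)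
        (fun x => mem_HH_add hy.1)
    exact this.measurableSet
  have hmono : ∀ m, Monotone (E m) := by
    intro m a b hab x hx y hy
    apply hx y ⟨hy.1, hy.2.trans_le ?_⟩
    apply one_div_le_one_div_of_le (by positivity)
    have : (a:ℝ) ≤ b := by exact_mod_cast hab
    linarith
  have hcov : ∀ m, G' ⊆ ⋃ n, E m n := by
    intro m x hx
    have hxn : x ∉ FJ Φ (1 - 1 / ((m : ℝ) + 2)) := by
      intro h
      exact hx.1.2 (Set.mem_iUnion.mpr ⟨m, h⟩)
    obtain ⟨δ, hδ, hδb⟩ := exists_of_notMem_FJ hd hb hxn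
    obtain ⟨n, hn⟩ := exists_nat_one_div_lt hδ
    rw [Set.mem_iUnion]
    refine ⟨n, fun y hy => ?_⟩
    have := hδb _ (mem_HH_add (x := x) hy.1) ?_
    · simp only [add_im, ofReal_im, mul_im, ofReal_re, I_im, mul_one, I_re, mul_zero, add_zero,
        zero_add] at this
      exact this.le
    · have e : (x + y * I : ℂ) - x = y * I := by ring
      rw [e, norm_mul, Complex.norm_I, mul_one, Complex.norm_real, Real.norm_eq_abs,
        abs_of_pos hy.1]
      exact hy.2.trans hn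
  obtain ⟨φ, hφ⟩ := egorov_like hG'm hG'fin hN hEm hmono hcov
  set A := G' ∩ ⋂ m, E m (φ m) with hA
  have hAm : MeasurableSet A := hG'm.inter (MeasurableSet.iInter fun m => hEm m (φ m))
  apply hne
  apply privalov_core hd hb hAm (N := N) (fun x hx => hx.1.2) hφ (fun x hx => hx.1.1.1)
  intro lam hlam
  obtain ⟨m, hm⟩ : ∃ m : ℕ, lam ≤ 1 - 1 / ((m : ℝ) + 2) := by
    obtain ⟨m, hm⟩ := exists_nat_one_div_lt (show 0 < 1 - lam by linarith)
    refine ⟨m, ?_⟩
    have : 1 / ((m : ℝ) + 2) ≤ 1 / ((m : ℝ) + 1) := by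
      apply one_div_le_one_div_of_le (by positivity)
      linarith
    linarith
  refine ⟨1 / ((φ m : ℝ) + 1), by positivity, fun x hx y hy => ?_⟩
  have := (Set.mem_iInter.mp hx.2 m) y hy
  refine le_trans ?_ this
  apply mul_le_mul_of_nonneg_right _ hy.1.le
  linarith

end Pool.Agent.Lib.MP_ffb813_an
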