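import Pool.Agent.Lib.MP_ffb813_an.Julia

set_option autoImplicit false

open Complex MeasureTheory Set Filter Topology
open scoped ComplexConjugate Real NNReal

namespace Pool.Agent.Lib.MP_ffb813_an

/-- Oscillatory integral along an expanding phase function tends to zero. -/
lemma osc_expanding {P : Set ℝ} (hP : MeasurableSet P) (hfin : volume P ≠ ⊤) {β : ℝ → ℝ}
    (hβ : AEMeasurable β (volume.restrict P)) {K : ℝ≥0}
    (hexp : ∀ x₁ ∈ P, ∀ x₂ ∈ P, |x₁ - x₂| ≤ K * |β x₁ - β x₂|) {h : ℝ → ℂ}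
    (hh : AEStronglyMeasurable h (volume.restrict P)) :
    Tendsto (fun n : ℕ => ∫ x in P, Complex.exp (I * ((n : ℝ) * β x : ℝ)) * h x) atTop (𝓝 0) := by
  classical
  -- inverse function
  have hinj : Set.InjOn β P := by
    intro x₁ h₁ x₂ h₂ he
    have := hexp x₁ h₁ x₂ h₂
    rw [he, sub_self, abs_zero, mul_zero] at this
    exact sub_eq_zero.mp (abs_eq_zero.mp (le_antisymm this (abs_nonneg _)))
  have hlip : LipschitzOnWith K (Function.invFunOn β P) (β '' P) := by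
    apply LipschitzOnWith.of_dist_le_mul
    rintro _ ⟨x₁, h₁, rfl⟩ _ ⟨x₂, h₂, rfl⟩
    rw [hinj.leftInvOn_invFunOn h₁, hinj.leftInvOn_invFunOn h₂, Real.dist_eq, Real.dist_eq]
    exact hexp x₁ h₁ x₂ h₂
  obtain ⟨γ, hγ, hγeq⟩ := hlip.extend_real
  have hγβ : ∀ x ∈ P, γ (β x) = x := by
    intro x hx
    rw [← hγeq (Set.mem_image_of_mem β hx), hinj.leftInvOn_invFunOn hx]
  -- measurable representative
  set h' := hh.mk h with hh'
  have h'm : StronglyMeasurable h' := hh.stronglyMeasurable_mk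
  have hae : h =ᵐ[volume.restrict P] h' := hh.ae_eq_mk
  set ν : Measure ℝ := (volume.restrict P).map β with hν
  have hac : ν ≪ volume := by
    refine Measure.AbsolutelyContinuous.mk fun N hN hN0 => ?_
    rw [hν, Measure.map_apply_of_aemeasurable hβ hN]
    have : (volume.restrict P) (β ⁻¹' N) = volume (β ⁻¹' N ∩ P) := Measure.restrict_apply' hP
    rw [this]
    have hsub : β ⁻¹' N ∩ P ⊆ γ '' N := by
      rintro x ⟨h1, h2⟩
      exact ⟨β x, h1, hγβ x h2⟩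
    refine measure_mono_null hsub ?_
    rw [← MeasureTheory.hausdorffMeasure_real]
    have := hγ.hausdorffMeasure_image_le (d := 1) zero_le_one N
    rw [MeasureTheory.hausdorffMeasure_real, hN0, mul_zero] at this
    rw [MeasureTheory.hausdorffMeasure_real]
    exact le_antisymm this bot_le
  have : IsFiniteMeasure (volume.restrict P) := ⟨by
    rw [Measure.restrict_apply_univ]; exact lt_top_iff_ne_top.mpr hfin⟩
  have hff : IsFiniteMeasure ν := by
    rw [hν]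
    infer_instance
  have key : ∀ n : ℕ, ∫ x in P, Complex.exp (I * ((n : ℝ) * β x : ℝ)) * h x =
      ∫ v, Complex.exp (I * ((n : ℝ) * v : ℝ)) *
        ((ν.rnDeriv volume v).toReal • h' (γ v)) := by
    intro n
    have e1 : ∫ x in P, Complex.exp (I * ((n : ℝ) * β x : ℝ)) * h x =
        ∫ x in P, (fun v => Complex.exp (I * ((n : ℝ) * v : ℝ)) * h' (γ v)) (β x) := by
      apply integral_congr_ae
      filter_upwards [hae, ae_restrict_mem hP] with x hx hxP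
      rw [hγβ x hxP, hx]
    rw [e1, ← integral_map (f := fun v : ℝ => Complex.exp (I * ((n : ℝ) * v : ℝ)) * h' (γ v)) hβ,
      ← hν, ← integral_rnDeriv_smul hac]
    · congr 1
      ext v
      simp only [real_smul]
      ring
    · apply AEStronglyMeasurable.mul
      · apply Continuous.aestronglyMeasurable
        fun_prop
      · exact (h'm.comp_measurable hγ.continuous.measurable).aestronglyMeasurable
  simp only [key]
  have RL := Real.tendsto_integral_exp_smul_cocompact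
    (fun v : ℝ => ((ν.rnDeriv volume v).toReal • h' (γ v)))
  have hw : Tendsto (fun n : ℕ => -((n : ℝ) / (2 * π))) atTop (cocompact ℝ) := by
    have h1 : Tendsto (fun n : ℕ => ((n : ℝ) / (2 * π))) atTop atTop :=
      tendsto_natCast_atTop_atTop.atTop_div_const (by positivity)
    exact (tendsto_neg_atTop_atBot.comp h1).mono_right atBot_le_cocompact
  have := RL.comp hw
  refine this.congr fun n => ?_
  simp only [Function.comp]
  congr 1
  ext v
  rw [Circle.smul_def, smul_eq_mul, Real.fourierChar_apply]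
  congr 2
  push_cast
  field_simp

open Classical in
/-- The boundary value function on `FJ Φ 1`. -/
noncomputable def eta (Φ : ℂ → ℂ) (x : ℝ) : ℂ := if h : ∃ η, JL Φ 1 x η then h.choose else 1

lemma eta_spec {Φ : ℂ → ℂ} {x : ℝ} (hx : x ∈ FJ Φ 1) : JL Φ 1 x (eta Φ x) := by
  have h : ∃ η, JL Φ 1 x η := hx
  rw [eta, dif_pos h]
  exact h.choose_spec

lemma eta_spec' {Φ : ℂ → ℂ} (hb : ∀ τ ∈ HH, ‖Φ τ‖ < 1) {lam x : ℝ} (h0 : 0 ≤ lam) (h1 : lam ≤ 1)
    (hx : x ∈ FJ Φ lam) : JL Φ lam x (eta Φ x) := by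
  obtain ⟨η, hη⟩ := hx
  have hx1 : x ∈ FJ Φ 1 := ⟨η, JL_mono hb h1 hη⟩
  have := JL_unique hb h0 zero_le_one hη (eta_spec hx1)
  rwa [← this]

lemma norm_eta {Φ : ℂ → ℂ} (x : ℝ) : ‖eta Φ x‖ = 1 := by
  by_cases hx : x ∈ FJ Φ 1
  · exact (eta_spec hx).1
  · have : ¬ ∃ η, JL Φ 1 x η := hx
    rw [eta, dif_neg this]
    simp

lemma eta_lip {Φ : ℂ → ℂ} (hb : ∀ τ ∈ HH, ‖Φ τ‖ < 1) {lam : ℝ} (h0 : 0 ≤ lam) (h1 : lam ≤ 1)
    {x₁ x₂ : ℝ} (hx₁ : x₁ ∈ FJ Φ lam) (hx₂ : x₂ ∈ FJ Φ lam) :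
    ‖eta Φ x₁ - eta Φ x₂‖ ≤ lam * |x₁ - x₂| := by
  have := two_point hb h0 h0 (eta_spec' hb h0 h1 hx₁) (eta_spec' hb h0 h1 hx₂)
  have h2 : ‖eta Φ x₁ - eta Φ x₂‖ ^ 2 ≤ (lam * |x₁ - x₂|) ^ 2 := by
    rw [mul_pow, sq_abs]
    linarith
  exact le_of_sq_le_sq h2 (by positivity)

lemma continuousOn_eta {Φ : ℂ → ℂ} (hb : ∀ τ ∈ HH, ‖Φ τ‖ < 1) :
    ContinuousOn (eta Φ) (FJ Φ 1) := by
  have : LipschitzOnWith 1 (eta Φ) (FJ Φ 1) := by
    apply LipschitzOnWith.of_dist_le_mul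
    intro x hx y hy
    have := eta_lip hb zero_le_one le_rfl hx hy
    simpa [dist_eq_norm] using this
  exact this.continuousOn

/-- The unimodular boundary function `u = η e^{-ix}`. -/
noncomputable def uu (Φ : ℂ → ℂ) (x : ℝ) : ℂ := eta Φ x * Complex.exp (I * ((-x : ℝ) : ℂ))

lemma norm_uu {Φ : ℂ → ℂ} (x : ℝ) : ‖uu Φ x‖ = 1 := by
  rw [uu, norm_mul, norm_eta, Complex.norm_exp_I_mul_ofReal, one_mul]

lemma continuousOn_uu {Φ : ℂ → ℂ} (hb : ∀ τ ∈ HH, ‖Φ τ‖ < 1) :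
    ContinuousOn (uu Φ) (FJ Φ 1) := by
  unfold uu
  exact (continuousOn_eta hb).mul (Continuous.continuousOn (by fun_prop))

lemma exp_chord {t₁ t₂ d : ℝ} (hd : d ≤ 1) (h : |t₁ - t₂| ≤ d) :
    (1 - d / 2) * |t₁ - t₂| ≤
      ‖Complex.exp (I * (t₁ : ℂ)) - Complex.exp (I * (t₂ : ℂ))‖ := by
  have e1 : Complex.exp (I * (t₁ : ℂ)) - Complex.exp (I * (t₂ : ℂ)) =
      Complex.exp (I * (t₂ : ℂ)) * (Complex.exp (I * ((t₁ - t₂ : ℝ) : ℂ)) - 1) := by
    rw [mul_sub, ← Complex.exp_add]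
    push_cast
    ring_nf
  rw [e1, norm_mul, Complex.norm_exp_I_mul_ofReal, one_mul,
    Complex.norm_exp_I_mul_ofReal_sub_one, norm_mul, Real.norm_eq_abs, Real.norm_eq_abs]
  have hsin : |Real.sin ((t₁ - t₂) / 2)| = Real.sin (|t₁ - t₂| / 2) := by
    rcases le_total 0 (t₁ - t₂) with h1 | h1
    · rw [abs_of_nonneg h1, abs_of_nonneg]
      apply Real.sin_nonneg_of_nonneg_of_le_pi (by linarith)
      have := Real.pi_gt_three
      have := (abs_le.mp h).2
      linarith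
    · rw [abs_of_nonpos h1]
      have : (-(t₁ - t₂)) / 2 = -((t₁ - t₂) / 2) := by ring
      rw [this, Real.sin_neg, abs_of_nonpos]
      apply Real.sin_nonpos_of_nonpos_of_neg_pi_le (by linarith)
      have := Real.pi_gt_three
      have := (abs_le.mp h).1
      linarith
  rw [hsin]
  set s := |t₁ - t₂| with hs
  have hs0 : 0 ≤ s := abs_nonneg _
  rcases hs0.eq_or_lt with h0 | h0
  · rw [← h0]; simp
  · have := Real.sin_gt_sub_cube (x := s / 2) (by positivity)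
    rw [show |(2:ℝ)| = 2 by norm_num]
    have h3 : s ^ 3 ≤ d * s := by
      have : s ^ 2 ≤ d := by nlinarith
      nlinarith
    nlinarith

lemma osc_piece {Φ : ℂ → ℂ} (hd : DifferentiableOn ℂ Φ HH) (hb : ∀ τ ∈ HH, ‖Φ τ‖ < 1) {lam : ℝ}
    (h0 : 0 ≤ lam) (h1 : lam < 1) {a b : ℝ} (hab : b - a ≤ 1 - lam) {h : ℝ → ℂ}
    (hh : AEStronglyMeasurable h (volume.restrict (FJ Φ lam ∩ Ioc a b))) :
    Tendsto (fun n : ℕ => ∫ x in FJ Φ lam ∩ Ioc a b, (uu Φ x) ^ n * h x) atTop (𝓝 0) := by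
  set P := FJ Φ lam ∩ Ioc a b with hPdef
  have hP : MeasurableSet P := (isClosed_FJ hd hb h0).measurableSet.inter measurableSet_Ioc
  have hfin : volume P ≠ ⊤ :=
    ((measure_mono Set.inter_subset_right).trans_lt measure_Ioc_lt_top).ne
  have hPsub : P ⊆ FJ Φ 1 := fun x hx => FJ_mono hb h1.le hx.1
  have hβ : AEMeasurable (fun x => Complex.arg (uu Φ x)) (volume.restrict P) := by
    apply Complex.measurable_arg.comp_aemeasurable
    exact (((continuousOn_uu hb).mono hPsub).aestronglyMeasurable hP).aemeasurable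
  have hexp : ∀ x₁ ∈ P, ∀ x₂ ∈ P, |x₁ - x₂| ≤
      (Real.toNNReal (2 / (1 - lam))) * |Complex.arg (uu Φ x₁) - Complex.arg (uu Φ x₂)| := by
    intro x₁ hx₁ x₂ hx₂
    rw [Real.coe_toNNReal _ (by apply div_nonneg <;> linarith)]
    have hdist : |x₁ - x₂| ≤ 1 - lam := by
      rw [abs_le]
      constructor <;> linarith [hx₁.2.1, hx₁.2.2, hx₂.2.1, hx₂.2.2]
    have c1 : ‖uu Φ x₁ - uu Φ x₂‖ ≤ |Complex.arg (uu Φ x₁) - Complex.arg (uu Φ x₂)| := by
      have e : ∀ x, uu Φ x = Complex.exp (I * ((Complex.arg (uu Φ x) : ℝ) : ℂ)) := by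
        intro x
        have := Complex.norm_mul_exp_arg_mul_I (uu Φ x)
        rw [norm_uu] at this
        rw [mul_comm I]
        simpa using this.symm
      have e2 : uu Φ x₁ - uu Φ x₂ = Complex.exp (I * ((Complex.arg (uu Φ x₂) : ℝ) : ℂ)) *
          (Complex.exp (I * ((Complex.arg (uu Φ x₁) - Complex.arg (uu Φ x₂) : ℝ) : ℂ)) - 1) := by
        rw [mul_sub, ← Complex.exp_add]
        conv_lhs => rw [e x₁, e x₂]
        push_cast
        ring_nf
      rw [e2, norm_mul, Complex.norm_exp_I_mul_ofReal, one_mul]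
      exact Real.norm_exp_I_mul_ofReal_sub_one_le
    have c2 := exp_chord (t₁ := -x₁) (t₂ := -x₂) (d := 1 - lam) (by linarith)
      (by rw [show -x₁ - -x₂ = -(x₁ - x₂) by ring, abs_neg]; exact hdist)
    rw [show -x₁ - -x₂ = -(x₁ - x₂) by ring, abs_neg] at c2
    have c3 := eta_lip hb h0 h1.le hx₁.1 hx₂.1
    have c4 : uu Φ x₁ - uu Φ x₂ = eta Φ x₁ * (Complex.exp (I * ((-x₁ : ℝ) : ℂ)) -
        Complex.exp (I * ((-x₂ : ℝ) : ℂ))) +
        (eta Φ x₁ - eta Φ x₂) * Complex.exp (I * ((-x₂ : ℝ) : ℂ)) := by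
      simp only [uu]; ring
    have c5 : ‖Complex.exp (I * ((-x₁ : ℝ) : ℂ)) - Complex.exp (I * ((-x₂ : ℝ) : ℂ))‖ ≤
        ‖uu Φ x₁ - uu Φ x₂‖ + ‖eta Φ x₁ - eta Φ x₂‖ := by
      have t1 : ‖eta Φ x₁ * (Complex.exp (I * ((-x₁ : ℝ) : ℂ)) -
        Complex.exp (I * ((-x₂ : ℝ) : ℂ)))‖ = ‖Complex.exp (I * ((-x₁ : ℝ) : ℂ)) -
        Complex.exp (I * ((-x₂ : ℝ) : ℂ))‖ := by rw [norm_mul, norm_eta, one_mul]
      have t2 : ‖(eta Φ x₁ - eta Φ x₂) * Complex.exp (I * ((-x₂ : ℝ) : ℂ))‖ =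
        ‖eta Φ x₁ - eta Φ x₂‖ := by
        rw [norm_mul, Complex.norm_exp_I_mul_ofReal, mul_one]
      rw [← t1, ← t2]
      have : eta Φ x₁ * (Complex.exp (I * ((-x₁ : ℝ) : ℂ)) -
        Complex.exp (I * ((-x₂ : ℝ) : ℂ))) = (uu Φ x₁ - uu Φ x₂) -
        (eta Φ x₁ - eta Φ x₂) * Complex.exp (I * ((-x₂ : ℝ) : ℂ)) := by
        rw [c4]; ring
      rw [this]
      exact norm_sub_le _ _
    rw [div_mul_eq_mul_div, le_div_iff₀ (by linarith)]
    nlinarith
  have key := osc_expanding hP hfin hβ hexp hh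
  refine key.congr fun n => ?_
  congr 1
  ext x
  congr 1
  have := Complex.norm_mul_exp_arg_mul_I (uu Φ x)
  rw [norm_uu] at this
  conv_rhs => rw [← this]
  rw [mul_pow, ← Complex.exp_nat_mul]
  push_cast
  rw [one_pow, one_mul]
  congr 1
  ring

lemma integrableOn_uu {Φ : ℂ → ℂ} (hb : ∀ τ ∈ HH, ‖Φ τ‖ < 1)
    {h : ℝ → ℂ} (hh : ContinuousOn h (FJ Φ 1)) {C : ℝ} (hC : ∀ x ∈ FJ Φ 1, ‖h x‖ ≤ C)
    {P : Set ℝ} (hP : MeasurableSet P) (hfin : volume P ≠ ⊤) (hPsub : P ⊆ FJ Φ 1) (n : ℕ) :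
    IntegrableOn (fun x => (uu Φ x) ^ n * h x) P := by
  have : IsFiniteMeasure (volume.restrict P) := ⟨by
    rw [Measure.restrict_apply_univ]; exact lt_top_iff_ne_top.mpr hfin⟩
  apply Integrable.of_bound (C := C)
  · exact ((((continuousOn_uu hb).pow n).mul hh).mono hPsub).aestronglyMeasurable hP
  · filter_upwards [ae_restrict_mem hP] with x hx
    rw [norm_mul, norm_pow, norm_uu, one_pow, one_mul]
    exact hC x (hPsub hx)

lemma osc_F {Φ : ℂ → ℂ} (hd : DifferentiableOn ℂ Φ HH) (hb : ∀ τ ∈ HH, ‖Φ τ‖ < 1) {lam : ℝ}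
    (h0 : 0 ≤ lam) (h1 : lam < 1) {h : ℝ → ℂ} (hh : ContinuousOn h (FJ Φ 1)) {C : ℝ}
    (hC : ∀ x ∈ FJ Φ 1, ‖h x‖ ≤ C) (m : ℕ) : ∀ a b : ℝ, b - a ≤ m * (1 - lam) →
    Tendsto (fun n : ℕ => ∫ x in FJ Φ lam ∩ Ioc a b, (uu Φ x) ^ n * h x) atTop (𝓝 0) := by
  have hmeas : ∀ a b, MeasurableSet (FJ Φ lam ∩ Ioc a b) := fun a b =>
    (isClosed_FJ hd hb h0).measurableSet.inter measurableSet_Ioc
  have hfin : ∀ a b, volume (FJ Φ lam ∩ Ioc a b) ≠ ⊤ := fun a b =>
    ((measure_mono Set.inter_subset_right).trans_lt measure_Ioc_lt_top).ne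
  have hsub : ∀ a b, FJ Φ lam ∩ Ioc a b ⊆ FJ Φ 1 := fun a b x hx => FJ_mono hb h1.le hx.1
  induction m with
  | zero =>
    intro a b hab
    have : Ioc a b = ∅ := by
      apply Ioc_eq_empty
      simp only [CharP.cast_eq_zero, zero_mul] at hab
      linarith
    simp [this]
  | succ m ih =>
    intro a b hab
    rcases le_total (b - a) (1 - lam) with hle | hle
    · exact osc_piece hd hb h0 h1 hle ((hh.mono (hsub a b)).aestronglyMeasurable (hmeas a b))
    · set c := b - (1 - lam) with hc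
      have hac : a ≤ c := by linarith
      have hcb : c ≤ b := by linarith
      have t1 := ih a c (by push_cast at hab; linarith)
      have t2 := osc_piece hd hb h0 h1 (a := c) (b := b) (by linarith)
        ((hh.mono (hsub c b)).aestronglyMeasurable (hmeas c b))
      have t3 := t1.add t2
      rw [add_zero] at t3
      refine t3.congr fun n => ?_
      have hu : FJ Φ lam ∩ Ioc a b = (FJ Φ lam ∩ Ioc a c) ∪ (FJ Φ lam ∩ Ioc c b) := by
        rw [← Set.inter_union_distrib_left, Ioc_union_Ioc_eq_Ioc hac hcb]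
      rw [hu, setIntegral_union]
      · rw [Set.disjoint_left]
        rintro x ⟨_, hx1⟩ ⟨_, hx2⟩
        exact absurd hx1.2 (not_le.mpr hx2.1)
      · exact hmeas c b
      · exact integrableOn_uu hb hh hC (hmeas a c) (hfin a c) (hsub a c) n
      · exact integrableOn_uu hb hh hC (hmeas c b) (hfin c b) (hsub c b) n

end Pool.Agent.Lib.MP_ffb813_an
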