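import Pool.Agent.Lib.MP_ffb813_an.Contour

set_option autoImplicit false

open Complex MeasureTheory Set Filter Topology
open scoped ComplexConjugate Real NNReal

namespace Pool.Agent.Lib.MP_ffb813_an

lemma partition_bound {F : Set ℝ} (hF : IsClosed F) {g : ℝ → ℂ} (hg : Continuous g) {D : ℝ}
    (hD : ∀ x, ‖g x‖ ≤ D) {T : ℝ} (hT : 0 < T) {M : ℕ} (hM : 0 < M) {ε : ℝ} (hε : 0 ≤ ε)
    (hgood : ∀ m : ℕ, m < M → (∀ x ∈ Icc ((m:ℝ) * (T / M)) (((m:ℝ) + 1) * (T / M)), x ∉ F) →
      ‖∫ x in ((m:ℝ) * (T / M))..(((m:ℝ) + 1) * (T / M)), g x‖ ≤ ε / M) :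
    ‖∫ x in (0:ℝ)..T, (Fᶜ).indicator g x‖ ≤
      ε + D * (volume (Metric.cthickening (T / M) (F ∩ Icc 0 T) \ F)).toReal := by
  have hD0 : 0 ≤ D := (norm_nonneg _).trans (hD 0)
  have hM' : (0:ℝ) < M := by exact_mod_cast hM
  set K := Metric.cthickening (T / M) (F ∩ Icc 0 T) \ F with hK
  have hKm : MeasurableSet K := Metric.isClosed_cthickening.measurableSet.diff hF.measurableSet
  have hcomp : IsCompact (F ∩ Icc 0 T) := isCompact_Icc.inter_left hF
  have hKfin : volume K ≠ ⊤ := by
    refine ((measure_mono Set.sdiff_subset).trans_lt ?_).ne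
    exact hcomp.cthickening.measure_lt_top
  have hg1 : ∀ s t : ℝ, IntervalIntegrable ((Fᶜ).indicator g) volume s t := by
    intro s t
    exact ⟨(hg.integrableOn_Ioc).indicator hF.measurableSet.compl,
      (hg.integrableOn_Ioc).indicator hF.measurableSet.compl⟩
  have hk1 : ∀ s t : ℝ, IntervalIntegrable (K.indicator (fun _ => D)) volume s t := by
    intro s t
    exact ⟨(continuous_const.integrableOn_Ioc).indicator hKm,
      (continuous_const.integrableOn_Ioc).indicator hKm⟩
  set a : ℕ → ℝ := fun m => (m:ℝ) * (T / M) with ha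
  have ha1 : ∀ m : ℕ, a (m + 1) = ((m:ℝ) + 1) * (T / M) := by
    intro m; simp [ha]
  have ha0 : a 0 = 0 := by simp [ha]
  have haM : a M = T := by
    simp only [ha]
    field_simp
  have hstep : ∀ m, a m ≤ a (m + 1) := by
    intro m
    rw [ha1]
    simp only [ha]
    have : 0 < T / M := by positivity
    nlinarith
  have hpiece : ∀ m ∈ Finset.range M, ‖∫ x in (a m)..(a (m + 1)), (Fᶜ).indicator g x‖ ≤
      ε / M + ∫ x in (a m)..(a (m + 1)), K.indicator (fun _ => D) x := by
    intro m hm
    have hm' : m < M := Finset.mem_range.mp hm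
    have hmM : ((m:ℝ) + 1) ≤ M := by exact_mod_cast hm'
    by_cases hgd : ∀ x ∈ Icc ((m:ℝ) * (T / M)) (((m:ℝ) + 1) * (T / M)), x ∉ F
    · have e1 : ∫ x in (a m)..(a (m + 1)), (Fᶜ).indicator g x =
          ∫ x in (a m)..(a (m + 1)), g x := by
        apply intervalIntegral.integral_congr
        intro x hx
        rw [uIcc_of_le (hstep m)] at hx
        rw [ha1] at hx
        exact Set.indicator_of_mem (s := Fᶜ) (hgd x hx) g
      rw [e1, ha1]
      have h2 := hgood m hm' hgd
      have h3 : 0 ≤ ∫ x in (a m)..(a (m + 1)), K.indicator (fun _ => D) x := by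
        apply intervalIntegral.integral_nonneg (hstep m)
        intro x _
        exact Set.indicator_nonneg (fun _ _ => hD0) x
      rw [ha1] at h3
      linarith
    · push Not at hgd
      obtain ⟨x₀, hx₀, hx₀F⟩ := hgd
      have hTM : 0 < T / M := by positivity
      have hx₀T : x₀ ∈ F ∩ Icc 0 T := by
        refine ⟨hx₀F, ?_, ?_⟩
        · exact le_trans (by positivity) hx₀.1
        · refine hx₀.2.trans ?_
          calc ((m:ℝ) + 1) * (T / M) ≤ M * (T / M) := by
                exact mul_le_mul_of_nonneg_right hmM hTM.le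
            _ = T := by field_simp
      have h1 : ‖∫ x in (a m)..(a (m + 1)), (Fᶜ).indicator g x‖ ≤
          ∫ x in (a m)..(a (m + 1)), K.indicator (fun _ => D) x := by
        apply intervalIntegral.norm_integral_le_of_norm_le (hstep m) _ (hk1 _ _)
        filter_upwards with x hx
        by_cases hxF : x ∈ F
        · rw [Set.indicator_of_notMem (by simpa using hxF)]
          rw [norm_zero]
          exact Set.indicator_nonneg (fun _ _ => hD0) x
        · rw [Set.indicator_of_mem (s := Fᶜ) hxF]
          have hxK : x ∈ K := by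
            refine ⟨?_, hxF⟩
            apply Metric.mem_cthickening_of_dist_le x x₀ _ _ hx₀T
            rw [Real.dist_eq, abs_le]
            rw [ha1] at hx
            have h5 : (m:ℝ) * (T / M) < x := hx.1
            constructor
            · linarith [hx₀.2]
            · linarith [hx.2, hx₀.1]
          rw [Set.indicator_of_mem hxK]
          exact hD x
      have : 0 ≤ ε / M := by positivity
      linarith
  have hsum1 : ∑ m ∈ Finset.range M, ∫ x in (a m)..(a (m + 1)), (Fᶜ).indicator g x =
      ∫ x in (a 0)..(a M), (Fᶜ).indicator g x :=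
    intervalIntegral.sum_integral_adjacent_intervals fun _ _ => hg1 _ _
  have hsum2 : ∑ m ∈ Finset.range M, ∫ x in (a m)..(a (m + 1)), K.indicator (fun _ => D) x =
      ∫ x in (a 0)..(a M), K.indicator (fun _ => D) x :=
    intervalIntegral.sum_integral_adjacent_intervals fun _ _ => hk1 _ _
  rw [ha0, haM] at hsum1 hsum2
  rw [← hsum1]
  refine (norm_sum_le _ _).trans ?_
  refine (Finset.sum_le_sum hpiece).trans ?_
  rw [Finset.sum_add_distrib, Finset.sum_const, Finset.card_range, hsum2]
  have e3 : M • (ε / M) = ε := by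
    rw [nsmul_eq_mul]; field_simp
  rw [e3]
  have e4 : ∫ x in (0:ℝ)..T, K.indicator (fun _ => D) x ≤ D * (volume K).toReal := by
    rw [intervalIntegral.integral_of_le hT.le, setIntegral_indicator hKm, setIntegral_const,
      smul_eq_mul, mul_comm]
    apply mul_le_mul_of_nonneg_left _ hD0
    rw [Measure.real]
    exact ENNReal.toReal_mono hKfin (measure_mono Set.inter_subset_right)
  linarith

end Pool.Agent.Lib.MP_ffb813_an
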