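import Mathlib

set_option autoImplicit false

open Complex MeasureTheory Set Filter Topology
open scoped ComplexConjugate Real

namespace Pool.Agent.Lib.MP_ffb813_an

/-- The open upper half plane, as a set of complex numbers. -/
def HH : Set ℂ := {τ | 0 < τ.im}

lemma isOpen_HH : IsOpen HH := isOpen_lt continuous_const Complex.continuous_im

lemma mem_HH {τ : ℂ} : τ ∈ HH ↔ 0 < τ.im := Iff.rfl

lemma convex_HH : Convex ℝ HH := by
  have : HH = Complex.imLm ⁻¹' (Set.Ioi (0:ℝ)) := rfl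
  rw [this]
  exact (convex_Ioi 0).linear_preimage Complex.imLm

lemma sub_conj_ne_zero {τ τ₀ : ℂ} (h₀ : τ₀ ∈ HH) (hτ : τ ∈ HH) : τ - conj τ₀ ≠ 0 := by
  intro h
  have h1 : (τ - conj τ₀).im = 0 := by rw [h]; simp
  simp only [sub_im, conj_im, sub_neg_eq_add] at h1
  have h2 : 0 < τ.im := hτ
  have h3 : 0 < τ₀.im := h₀
  linarith

/-- Schwarz lemma on the upper half plane. -/
lemma schwarz_HH {f : ℂ → ℂ} (hf : DifferentiableOn ℂ f HH) (hb : ∀ τ ∈ HH, ‖f τ‖ ≤ 1)
    {τ₀ τ : ℂ} (h₀ : τ₀ ∈ HH) (hτ : τ ∈ HH) (hz : f τ₀ = 0) :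
    ‖f τ‖ * ‖τ - conj τ₀‖ ≤ ‖τ - τ₀‖ := by
  set g : ℂ → ℂ := fun w => (τ₀ - conj τ₀ * w) / (1 - w) with hg
  have h1w : ∀ w ∈ Metric.ball (0:ℂ) 1, (1:ℂ) - w ≠ 0 := by
    intro w hw h
    have : w = 1 := by linear_combination -h
    rw [this] at hw
    simp at hw
  have hgim : ∀ w ∈ Metric.ball (0:ℂ) 1, g w ∈ HH := by
    intro w hw
    have hne := h1w w hw
    have hpos : 0 < normSq (1 - w) := normSq_pos.mpr hne
    have hw1 : normSq w < 1 := by
      have : ‖w‖ < 1 := by simpa using hw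
      rw [Complex.normSq_eq_norm_sq]
      nlinarith [norm_nonneg w]
    have h3 : 0 < τ₀.im := h₀
    show 0 < (g w).im
    rw [hg]
    simp only
    rw [Complex.div_im]
    have : (τ₀ - conj τ₀ * w).im * (1 - w).re / normSq (1 - w) -
        (τ₀ - conj τ₀ * w).re * (1 - w).im / normSq (1 - w) =
        τ₀.im * (1 - normSq w) / normSq (1 - w) := by
      field_simp
      simp [normSq_apply]
      ring
    rw [this]
    apply div_pos (mul_pos h3 (by linarith)) hpos
  have hgd : DifferentiableOn ℂ g (Metric.ball (0:ℂ) 1) := by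
    intro w hw
    apply DifferentiableAt.differentiableWithinAt
    apply DifferentiableAt.div
    · fun_prop
    · fun_prop
    · exact h1w w hw
  have hfg : DifferentiableOn ℂ (fun w => f (g w)) (Metric.ball (0:ℂ) 1) :=
    hf.comp hgd hgim
  have hmaps : Set.MapsTo (fun w => f (g w)) (Metric.ball (0:ℂ) 1) (Metric.closedBall (0:ℂ) 1) := by
    intro w hw
    simpa using hb _ (hgim w hw)
  have h0 : (fun w => f (g w)) 0 = 0 := by
    simp [hg, hz]
  have hne := sub_conj_ne_zero h₀ hτ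
  set w : ℂ := (τ - τ₀) / (τ - conj τ₀) with hw
  have hnorm : ‖w‖ < 1 := by
    rw [hw, norm_div, div_lt_one (norm_pos_iff.mpr hne)]
    have e1 : ‖τ - τ₀‖ ^ 2 < ‖τ - conj τ₀‖ ^ 2 := by
      rw [← Complex.normSq_eq_norm_sq, ← Complex.normSq_eq_norm_sq]
      simp only [normSq_apply, sub_re, sub_im, conj_re, conj_im]
      have h2 : 0 < τ.im := hτ
      have h3 : 0 < τ₀.im := h₀
      nlinarith [mul_pos h2 h3]
    exact lt_of_pow_lt_pow_left₀ 2 (norm_nonneg _) e1
  have key := Complex.norm_le_norm_of_mapsTo_ball hfg hmaps h0 hnorm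
  have hgw : g w = τ := by
    simp only [hg]
    have h1 : (1 : ℂ) - w ≠ 0 := h1w w (by simpa using hnorm)
    rw [div_eq_iff h1]
    rw [hw] at *
    field_simp
    ring
  simp only [hgw] at key
  rw [hw, norm_div, le_div_iff₀ (norm_pos_iff.mpr hne)] at key
  exact key

end Pool.Agent.Lib.MP_ffb813_an
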