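import Mathlib
import Pool.Agent.Lib.MP_ffb813_an.SP

set_option autoImplicit false

open Complex MeasureTheory Set Filter Topology
open scoped ComplexConjugate Real NNReal

namespace Pool.Agent.Lib.MP_ffb813_an

/-- Poisson kernel of the upper half plane. -/
noncomputable def PK (x y t : ℝ) : ℝ := (π * y)⁻¹ * (1 + ((t - x) / y) ^ 2)⁻¹

lemma PK_nonneg {x y t : ℝ} (hy : 0 < y) : 0 ≤ PK x y t := by
  unfold PK; positivity

lemma PK_le {x y t : ℝ} (hy : 0 < y) : PK x y t ≤ (π * y)⁻¹ := by
  unfold PK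
  have h1 : (1 + ((t - x) / y) ^ 2)⁻¹ ≤ 1 := by
    apply inv_le_one_of_one_le₀
    nlinarith [sq_nonneg ((t - x) / y)]
  have h2 : 0 ≤ (π * y)⁻¹ := by positivity
  nlinarith

lemma PK_eq {x y t : ℝ} (hy : 0 < y) : PK x y t = π⁻¹ * (y / ((t - x) ^ 2 + y ^ 2)) := by
  unfold PK
  field_simp
  ring

lemma integrable_PK {x y : ℝ} (hy : 0 < y) : Integrable (PK x y) := by
  unfold PK
  apply Integrable.const_mul
  have h1 : Integrable (fun t : ℝ => (1 + (t / y) ^ 2)⁻¹) :=
    integrable_inv_one_add_sq.comp_div hy.ne'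
  exact h1.comp_sub_right x

lemma integral_PK {x y : ℝ} (hy : 0 < y) : ∫ t, PK x y t = 1 := by
  unfold PK
  rw [integral_const_mul]
  have h1 : ∫ t : ℝ, (1 + ((t - x) / y) ^ 2)⁻¹ = ∫ t : ℝ, (1 + (t / y) ^ 2)⁻¹ :=
    integral_sub_right_eq_self (fun t : ℝ => (1 + (t / y) ^ 2)⁻¹) x
  rw [h1, Measure.integral_comp_div (fun t : ℝ => (1 + t ^ 2)⁻¹) y, integral_univ_inv_one_add_sq,
    abs_of_pos hy, smul_eq_mul]
  have := Real.pi_pos
  field_simp

lemma integral_PK_interval {x y L : ℝ} (hy : 0 < y) :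
    ∫ t in (x - L * y)..(x + L * y), PK x y t = 2 / π * Real.arctan L := by
  unfold PK
  rw [intervalIntegral.integral_const_mul]
  have h1 : ∫ t in (x - L * y)..(x + L * y), (1 + ((t - x) / y) ^ 2)⁻¹ =
      ∫ t in (x - L * y - x)..(x + L * y - x), (1 + (t / y) ^ 2)⁻¹ :=
    intervalIntegral.integral_comp_sub_right (fun t : ℝ => (1 + (t / y) ^ 2)⁻¹) x
  rw [h1, intervalIntegral.integral_comp_div (fun t : ℝ => (1 + t ^ 2)⁻¹) hy.ne',
    integral_inv_one_add_sq, smul_eq_mul]
  have e1 : (x + L * y - x) / y = L := by field_simp; ring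
  have e2 : (x - L * y - x) / y = -L := by field_simp; ring
  rw [e1, e2, Real.arctan_neg]
  have := Real.pi_pos
  field_simp
  ring

/-- harmonic measure -/
noncomputable def om (A : Set ℝ) (x y : ℝ) : ℝ := ∫ t in A, PK x y t

lemma om_nonneg {A : Set ℝ} {x y : ℝ} (hy : 0 < y) : 0 ≤ om A x y :=
  integral_nonneg fun _ => PK_nonneg hy

lemma om_add_compl {A : Set ℝ} (hA : MeasurableSet A) {x y : ℝ} (hy : 0 < y) :
    om A x y + om Aᶜ x y = 1 := by
  rw [om, om, integral_add_compl hA (integrable_PK hy), integral_PK hy]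

lemma om_le_one {A : Set ℝ} (hA : MeasurableSet A) {x y : ℝ} (hy : 0 < y) : om A x y ≤ 1 := by
  have := om_add_compl hA (x := x) hy
  have := om_nonneg (A := Aᶜ) (x := x) hy
  linarith

lemma om_mono {A B : Set ℝ} (h : A ⊆ B) {x y : ℝ} (hy : 0 < y) :
    om A x y ≤ om B x y :=
  setIntegral_mono_set (integrable_PK hy).integrableOn
    (Eventually.of_forall fun _ => PK_nonneg hy) (LE.le.eventuallyLE h)

lemma om_Ioc {x y L : ℝ} (hL : 0 ≤ L) (hy : 0 < y) :
    om (Ioc (x - L * y) (x + L * y)) x y = 2 / π * Real.arctan L := by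
  rw [om, ← integral_PK_interval (x := x) hy, intervalIntegral.integral_of_le]
  have : 0 ≤ L * y := by positivity
  linarith

/-- If the harmonic measure is at least one half then some point of the set is in the cone. -/
lemma exists_of_om {A : Set ℝ} {x y : ℝ} (hy : 0 < y)
    (h : 1 / 2 ≤ om A x y) : ∃ t ∈ A, |x - t| ≤ 2 * y := by
  by_contra hcon
  push Not at hcon
  have hsub : A ⊆ (Ioc (x - 2 * y) (x + 2 * y))ᶜ := by
    intro t ht hmem
    have := hcon t ht
    rw [lt_abs] at this
    rcases this with h1 | h1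
    · linarith [hmem.1]
    · linarith [hmem.2]
  have h1 := om_mono hsub (x := x) hy
  have h2 := om_add_compl (measurableSet_Ioc (a := x - 2 * y) (b := x + 2 * y)) (x := x) hy
  rw [om_Ioc (by norm_num) hy] at h2
  have h3 : Real.arctan 1 < Real.arctan 2 := Real.arctan_strictMono (by norm_num)
  rw [Real.arctan_one] at h3
  have h4 : 1 / 2 < 2 / π * Real.arctan 2 := by
    have := Real.pi_pos
    rw [div_mul_eq_mul_div, lt_div_iff₀ this]
    linarith
  linarith

lemma om_le_vol {A : Set ℝ} (hfin : volume A ≠ ⊤) {x y : ℝ} (hy : 0 < y) :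
    om A x y ≤ (π * y)⁻¹ * (volume A).toReal := by
  have h1 : om A x y ≤ ∫ _ in A, (π * y)⁻¹ := by
    apply integral_mono_of_nonneg (Eventually.of_forall fun _ => PK_nonneg hy)
    · apply integrable_const_iff.mpr
      right
      rwa [isFiniteMeasure_restrict]
    · exact Eventually.of_forall fun _ => PK_le hy
  rw [setIntegral_const, smul_eq_mul, mul_comm, Measure.real] at h1
  exact h1

/-- There is a point where the harmonic measure exceeds one half. -/
lemma exists_om_gt {A : Set ℝ} (hA : MeasurableSet A) (hpos : volume A ≠ 0) :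
    ∃ x y : ℝ, 0 < y ∧ 1 / 2 < om A x y := by
  have hdens := Besicovitch.ae_tendsto_measure_inter_div (volume : Measure ℝ) A
  have hex : ∃ x, Tendsto (fun r => volume (A ∩ Metric.closedBall x r) /
      volume (Metric.closedBall x r)) (𝓝[>] 0) (𝓝 1) := by
    have hne : (ae (volume.restrict A)).NeBot := by
      rw [ae_neBot]
      intro h
      rw [Measure.restrict_eq_zero] at h
      exact hpos h
    exact hdens.exists
  obtain ⟨x, hx⟩ := hex
  -- choose L
  obtain ⟨L, hL0, hL⟩ : ∃ L : ℝ, 0 < L ∧ 3 / 4 < 2 / π * Real.arctan L := by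
    have t : Tendsto (fun L : ℝ => 2 / π * Real.arctan L) atTop (𝓝 (2 / π * (π / 2))) :=
      (tendsto_nhds_of_tendsto_nhdsWithin Real.tendsto_arctan_atTop).const_mul _
    have e : 2 / π * (π / 2) = 1 := by
      have := Real.pi_pos
      field_simp
    rw [e] at t
    have := (t.eventually (lt_mem_nhds (show (3/4:ℝ) < 1 by norm_num))).and (eventually_gt_atTop 0)
    obtain ⟨L, h1, h2⟩ := this.exists
    exact ⟨L, h2, h1⟩
  -- ratio close to one
  have hc : (1 - ENNReal.ofReal (1 / (4 * L))) < 1 := by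
    apply ENNReal.sub_lt_self ENNReal.one_ne_top one_ne_zero
    simp only [ne_eq, ENNReal.ofReal_eq_zero, not_le]
    positivity
  have hev := (hx.eventually (lt_mem_nhds hc)).and self_mem_nhdsWithin
  obtain ⟨r, hr1, hr0⟩ := hev.exists
  have hr0 : 0 < r := hr0
  set y : ℝ := r / L with hy
  have hypos : 0 < y := by positivity
  refine ⟨x, y, hypos, ?_⟩
  have hLy : L * y = r := by rw [hy]; field_simp
  -- volume of the missing part
  set B := Ioc (x - r) (x + r) with hB
  have hBm : MeasurableSet B := measurableSet_Ioc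
  have hvolB : volume B = ENNReal.ofReal (2 * r) := by
    rw [hB, Real.volume_Ioc]; ring_nf
  have hvolcb : volume (Metric.closedBall x r) = ENNReal.ofReal (2 * r) := Real.volume_closedBall x r
  have hBA : (1 - ENNReal.ofReal (1 / (4 * L))) * ENNReal.ofReal (2 * r) ≤ volume (A ∩ B) := by
    have e1 : volume (A ∩ B) = volume (A ∩ Metric.closedBall x r) := by
      apply measure_congr
      apply EventuallyEq.inter (ae_eq_refl _)
      rw [Real.closedBall_eq_Icc]
      exact Ioc_ae_eq_Icc
    rw [e1]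
    rw [hvolcb] at hr1
    have := (ENNReal.le_div_iff_mul_le (Or.inl (by simp [hr0])) (Or.inl ENNReal.ofReal_ne_top)).mp
      hr1.le
    exact this
  have hdiff : volume (B \ A) ≤ ENNReal.ofReal (y / 2) := by
    have e1 : volume (B \ A) = volume B - volume (A ∩ B) := by
      rw [← Set.sdiff_inter_self_eq_sdiff (s := B) (t := A)]
      rw [measure_sdiff Set.inter_subset_right (hA.inter hBm).nullMeasurableSet]
      refine ((measure_mono Set.inter_subset_right).trans_lt ?_).ne
      rw [hvolB]; exact ENNReal.ofReal_lt_top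
    rw [e1]
    refine (tsub_le_tsub_left hBA _).trans ?_
    rw [hvolB]
    have e2 : (1 - ENNReal.ofReal (1 / (4 * L))) * ENNReal.ofReal (2 * r) =
        ENNReal.ofReal (2 * r) - ENNReal.ofReal (y / 2) := by
      rw [ENNReal.sub_mul (fun _ _ => ENNReal.ofReal_ne_top), one_mul,
        ← ENNReal.ofReal_mul (by positivity)]
      congr 2
      rw [hy]
      field_simp
      ring
    rw [e2]
    exact tsub_tsub_le
  have hdiffR : (volume (B \ A)).toReal ≤ y / 2 := by
    apply ENNReal.toReal_le_of_le_ofReal (by positivity) hdiff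
  have h1 : om B x y = 2 / π * Real.arctan L := by
    rw [hB, ← hLy, om_Ioc hL0.le hypos]
  have h2 : om B x y = om (B ∩ A) x y + om (B \ A) x y := by
    rw [om, om, om, integral_inter_add_sdiff hA (integrable_PK hypos).integrableOn]
  have h3 : om (B \ A) x y ≤ (π * y)⁻¹ * (y / 2) := by
    refine (om_le_vol ?_ hypos).trans ?_
    · exact ne_top_of_le_ne_top ENNReal.ofReal_ne_top hdiff
    · apply mul_le_mul_of_nonneg_left hdiffR (by positivity)
  have h4 : (π * y)⁻¹ * (y / 2) = 1 / (2 * π) := by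
    have := Real.pi_pos
    field_simp
  have h5 : 1 / (2 * π) < 1 / 4 := by
    have := Real.pi_gt_three
    rw [div_lt_div_iff₀ (by positivity) (by norm_num)]
    linarith
  have h6 := om_mono (Set.inter_subset_right (s := B) (t := A)) (x := x) hypos
  linarith

end Pool.Agent.Lib.MP_ffb813_an
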