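import Pool.Agent.Lib.MP_ffb813_an.Cone
import Pool.Agent.Lib.MP_ffb813_an.Herglotz

set_option autoImplicit false

open Complex MeasureTheory Set Filter Topology
open scoped ComplexConjugate Real NNReal

namespace Pool.Agent.Lib.MP_ffb813_an

lemma differentiableOn_kk {Φ : ℂ → ℂ} (hd : DifferentiableOn ℂ Φ HH) :
    DifferentiableOn ℂ (kk Φ) HH := by
  unfold kk
  apply DifferentiableOn.sub
  · exact hd.deriv isOpen_HH
  · exact (differentiableOn_const _).mul hd

lemma norm_deriv_le_HH {Φ : ℂ → ℂ} (hd : DifferentiableOn ℂ Φ HH) (hb : ∀ τ ∈ HH, ‖Φ τ‖ < 1)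
    {τ : ℂ} (hτ : τ ∈ HH) : ‖deriv Φ τ‖ ≤ 1 / (τ.im / 2) := by
  have hy : 0 < τ.im := hτ
  have hball : Metric.closedBall τ (τ.im / 2) ⊆ HH := by
    intro z hz
    rw [mem_closedBall_iff_norm] at hz
    have := Complex.abs_im_le_norm (z - τ)
    rw [sub_im] at this
    have := (abs_le.mp (this.trans hz)).1
    show 0 < z.im
    linarith
  apply Complex.norm_deriv_le_of_forall_mem_sphere_norm_le (by positivity)
  · exact (hd.mono (Metric.closure_ball_subset_closedBall.trans hball)).diffContOnCl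
  · intro z hz
    exact (hb z (hball (Metric.sphere_subset_closedBall hz))).le

/-- uniform smallness of `kk` in the cones. -/
lemma kk_small {Φ : ℂ → ℂ} (hd : DifferentiableOn ℂ Φ HH) (hb : ∀ τ ∈ HH, ‖Φ τ‖ < 1)
    {A : Set ℝ} (hAF : A ⊆ FJ Φ 1)
    (hunif : ∀ lam : ℝ, lam < 1 → ∃ δ > 0, ∀ x ∈ A, ∀ y ∈ Ioo (0:ℝ) δ,
      2 * lam * y ≤ 1 - ‖Φ (x + y * I)‖ ^ 2) {ε : ℝ} (hε : 0 < ε) :
    ∃ s₀ > 0, ∀ τ ∈ HH, τ.im < s₀ → (∃ t ∈ A, |τ.re - t| ≤ 2 * τ.im) → ‖kk Φ τ‖ ≤ ε := by
  -- choose κ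
  set κ : ℝ := min 1 (ε / (14 * 1400)) with hκ
  have hκ0 : 0 < κ := lt_min one_pos (by positivity)
  have hκ1 : κ ≤ 1 := min_le_left _ _
  have hκ2 : κ ≤ ε / (14 * 1400) := min_le_right _ _
  set lam : ℝ := 1 - κ ^ 2 / 8 with hlam
  have hlam1 : lam < 1 := by
    have : 0 < κ ^ 2 := by positivity
    linarith
  have hlam2 : 1 / 2 ≤ lam := by
    have : κ ^ 2 ≤ 1 := by nlinarith
    linarith
  obtain ⟨δ, hδ, hδb⟩ := hunif lam hlam1
  set s₀ : ℝ := min (δ / 2) (min 1 (ε / 14)) with hs₀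
  have hs0 : 0 < s₀ := lt_min (by positivity) (lt_min one_pos (by positivity))
  refine ⟨s₀, hs0, fun τ hτ hτs ⟨t, htA, htc⟩ => ?_⟩
  have hy : 0 < τ.im := hτ
  have h1 : τ.im < δ / 2 := hτs.trans_le (min_le_left _ _)
  have h2 : τ.im < 1 := hτs.trans_le ((min_le_right _ _).trans (min_le_left _ _))
  have h3 : τ.im < ε / 14 := hτs.trans_le ((min_le_right _ _).trans (min_le_right _ _))
  have hrad : ∀ y ∈ Ioo 0 δ, y * ‖SS Φ t (t + y * I)‖ ≤ κ := by
    intro y hy
    have := SS_radial hb (hAF htA) hlam2 hy.1 (hδb t htA y hy)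
    have e : 8 * (1 - lam) = κ ^ 2 := by rw [hlam]; ring
    rw [e] at this
    exact le_of_sq_le_sq this hκ0.le
  have := kk_cone hd hb (hAF htA) hrad hτ htc (by linarith)
  refine this.trans ?_
  rw [le_div_iff₀ (by norm_num)] at hκ2
  nlinarith

/-- Core of the Privalov uniqueness argument. -/
theorem privalov_core {Φ : ℂ → ℂ} (hd : DifferentiableOn ℂ Φ HH) (hb : ∀ τ ∈ HH, ‖Φ τ‖ < 1)
    {A : Set ℝ} (hA : MeasurableSet A) {N : ℝ} (hAN : A ⊆ Icc (-N) N) (hpos : volume A ≠ 0)
    (hAF : A ⊆ FJ Φ 1)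
    (hunif : ∀ lam : ℝ, lam < 1 → ∃ δ > 0, ∀ x ∈ A, ∀ y ∈ Ioo (0:ℝ) δ,
      2 * lam * y ≤ 1 - ‖Φ (x + y * I)‖ ^ 2) :
    ∀ τ ∈ HH, kk Φ τ = 0 := by
  have hfin : volume A ≠ ⊤ := ((measure_mono hAN).trans_lt measure_Icc_lt_top).ne
  -- global bound in the cones
  obtain ⟨s₁, hs₁, hk1⟩ := kk_small hd hb hAF hunif one_pos
  set C : ℝ := max 1 (2 / s₁ + 1) with hC
  have hCpos : 0 < C := lt_max_of_lt_left one_pos
  have hkC : ∀ τ ∈ HH, (∃ t ∈ A, |τ.re - t| ≤ 2 * τ.im) → ‖kk Φ τ‖ ≤ C := by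
    intro τ hτ hc
    have hy : 0 < τ.im := hτ
    rcases lt_or_ge τ.im s₁ with h | h
    · exact (hk1 τ hτ h hc).trans (le_max_left _ _)
    · refine le_trans ?_ (le_max_right _ _)
      have h1 := norm_deriv_le_HH hd hb hτ
      have h2 : ‖kk Φ τ‖ ≤ ‖deriv Φ τ‖ + 1 := by
        rw [kk]
        refine (norm_sub_le _ _).trans ?_
        rw [norm_mul, Complex.norm_I, one_mul]
        gcongr
        exact (hb τ hτ).le
      have h3 : 1 / (τ.im / 2) ≤ 2 / s₁ := by
        rw [div_div_eq_mul_div, one_mul]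
        exact div_le_div_of_nonneg_left (by norm_num) hs₁ h
      linarith
  have hcont : ContinuousOn (fun τ => (F0 A τ).re) HH :=
    Complex.continuous_re.comp_continuousOn (F0_differentiableOn hfin).continuousOn
  -- vanishing where harmonic measure exceeds one half
  have hvan : ∀ τ ∈ HH, 1 / 2 < (F0 A τ).re → kk Φ τ = 0 := by
    intro τ hτ hom
    have hτpos : 0 < τ.im := hτ
    have main : ∀ Λ : ℝ, 0 < Λ → ‖kk Φ τ‖ * Real.exp (Λ * ((F0 A τ).re - 1 / 2)) ≤ C := by
      intro Λ hΛ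
      obtain ⟨s₀, hs₀, hk0⟩ := kk_small hd hb hAF hunif
        (ε := C * Real.exp (-(Λ / 2))) (by positivity)
      set s : ℝ := min (s₀ / 2) (τ.im / 2) with hs
      have hspos : 0 < s := lt_min (by positivity) (by positivity)
      have hsτ : s < τ.im := (min_le_right _ _).trans_lt (by linarith)
      have hss₀ : s < s₀ := (min_le_left _ _).trans_lt (by linarith)
      set Ω : Set ℂ := {z | s < z.im} ∩ {z | 1 / 2 < (F0 A z).re} with hΩ
      have hsub : {z : ℂ | s ≤ z.im} ⊆ HH := fun z hz => lt_of_lt_of_le hspos hz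
      have hcl : IsClosed ({z : ℂ | s ≤ z.im} ∩ {z | 1 / 2 ≤ (F0 A z).re}) := by
        have hc1 : IsClosed {z : ℂ | s ≤ z.im} := isClosed_le continuous_const Complex.continuous_im
        exact (hcont.mono hsub).preimage_isClosed_of_isClosed hc1 isClosed_Ici
      have hop : IsOpen Ω := by
        have ho1 : IsOpen {z : ℂ | s < z.im} := isOpen_lt continuous_const Complex.continuous_im
        exact (hcont.mono (fun z hz => hspos.trans hz)).isOpen_inter_preimage ho1 isOpen_Ioi
      have hclos : closure Ω ⊆ {z : ℂ | s ≤ z.im} ∩ {z | 1 / 2 ≤ (F0 A z).re} := by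
        apply closure_minimal _ hcl
        intro z hz
        exact ⟨le_of_lt (show s < z.im from hz.1), le_of_lt (show 1 / 2 < (F0 A z).re from hz.2)⟩
      have hcone : ∀ z ∈ {z : ℂ | s ≤ z.im} ∩ {z | 1 / 2 ≤ (F0 A z).re},
          ∃ t ∈ A, |z.re - t| ≤ 2 * z.im := by
        intro z hz
        have hzHH : z ∈ HH := hsub hz.1
        apply exists_of_om (A := A) (x := z.re) (y := z.im) hzHH
        rw [← F0_re hfin hzHH]
        exact hz.2
      have hbdd : Bornology.IsBounded Ω := by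
        rw [isBounded_iff_forall_norm_le]
        refine ⟨|N| + 3 * (2 / π * (volume A).toReal), fun z hz => ?_⟩
        have hz' : z ∈ {z : ℂ | s ≤ z.im} ∩ {z | 1 / 2 ≤ (F0 A z).re} :=
          ⟨le_of_lt (show s < z.im from hz.1), le_of_lt (show 1 / 2 < (F0 A z).re from hz.2)⟩
        obtain ⟨t, htA, htc⟩ := hcone z hz'
        have hzHH : z ∈ HH := hsub hz'.1
        have hzpos : 0 < z.im := hzHH
        have h1 : (1:ℝ) / 2 ≤ (π * z.im)⁻¹ * (volume A).toReal := by
          refine le_trans hz'.2 ?_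
          rw [F0_re hfin hzHH]
          exact om_le_vol hfin hzpos
        have hpi := Real.pi_pos
        have h2 : z.im ≤ 2 / π * (volume A).toReal := by
          rw [inv_mul_eq_div, div_le_div_iff₀ (by norm_num) (by positivity)] at h1
          rw [div_mul_eq_mul_div, le_div_iff₀ hpi]
          linarith
        have h3 : |t| ≤ |N| := by
          rw [abs_le]
          have := hAN htA
          exact ⟨by linarith [this.1, le_abs_self N], this.2.trans (le_abs_self N)⟩
        have h4 : |z.re| ≤ |N| + 2 * z.im := by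
          have : |z.re| ≤ |z.re - t| + |t| := by
            have := abs_add_le (z.re - t) t
            simpa using this
          linarith
        have h5 := Complex.norm_le_abs_re_add_abs_im z
        rw [abs_of_pos hzpos] at h5
        linarith
      set H : ℂ → ℂ := fun z => kk Φ z * Complex.exp (Λ * (F0 A z - 1 / 2)) with hH
      have hHd : DifferentiableOn ℂ H HH := by
        apply (differentiableOn_kk hd).mul
        apply DifferentiableOn.cexp
        exact (differentiableOn_const _).mul ((F0_differentiableOn hfin).sub_const _)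
      have hHn : ∀ z, ‖H z‖ = ‖kk Φ z‖ * Real.exp (Λ * ((F0 A z).re - 1 / 2)) := by
        intro z
        rw [hH, norm_mul, Complex.norm_exp]
        congr 2
        simp
      have hdc : DiffContOnCl ℂ H Ω := by
        apply DifferentiableOn.diffContOnCl
        apply hHd.mono
        exact hclos.trans (Set.inter_subset_left.trans hsub)
      have hfr : ∀ z ∈ frontier Ω, ‖H z‖ ≤ C := by
        intro z hz
        have hz1 := hclos (frontier_subset_closure hz)
        have hz2 : z ∉ Ω := by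
          rw [hop.frontier_eq] at hz
          exact hz.2
        have hzHH : z ∈ HH := hsub hz1.1
        have hzc := hcone z hz1
        rw [hHn]
        by_cases h1 : (F0 A z).re = 1 / 2
        · rw [h1, sub_self, mul_zero, Real.exp_zero, mul_one]
          exact hkC z hzHH hzc
        · have h2 : z.im = s := by
            by_contra h3
            apply hz2
            exact ⟨lt_of_le_of_ne hz1.1 (Ne.symm h3), lt_of_le_of_ne hz1.2 (Ne.symm h1)⟩
          have h3 := hk0 z hzHH (by rw [h2]; exact hss₀) hzc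
          have h4 : (F0 A z).re ≤ 1 := by
            rw [F0_re hfin hzHH]
            exact om_le_one hA hzHH
          have h5 : Real.exp (Λ * ((F0 A z).re - 1 / 2)) ≤ Real.exp (Λ / 2) := by
            apply Real.exp_le_exp.mpr
            nlinarith
          calc ‖kk Φ z‖ * Real.exp (Λ * ((F0 A z).re - 1 / 2))
              ≤ (C * Real.exp (-(Λ / 2))) * Real.exp (Λ / 2) :=
                mul_le_mul h3 h5 (by positivity) (by positivity)
            _ = C := by
                rw [mul_assoc, ← Real.exp_add]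
                simp
      have hτΩ : τ ∈ Ω := ⟨hsτ, hom⟩
      have := Complex.norm_le_of_forall_mem_frontier_norm_le hbdd hdc hfr (subset_closure hτΩ)
      rwa [hHn] at this
    by_contra hne
    have hkpos : 0 < ‖kk Φ τ‖ := norm_pos_iff.mpr hne
    set a := (F0 A τ).re - 1 / 2 with ha
    have hapos : 0 < a := by rw [ha]; linarith
    have h1 := main (C / (‖kk Φ τ‖ * a)) (by positivity)
    have h2 : C / (‖kk Φ τ‖ * a) * a = C / ‖kk Φ τ‖ := by
      field_simp
    rw [h2] at h1
    have h3 := Real.add_one_le_exp (C / ‖kk Φ τ‖)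
    have h4 : ‖kk Φ τ‖ * (C / ‖kk Φ τ‖ + 1) ≤ C :=
      (mul_le_mul_of_nonneg_left h3 hkpos.le).trans h1
    have h5 : ‖kk Φ τ‖ * (C / ‖kk Φ τ‖ + 1) = C + ‖kk Φ τ‖ := by
      field_simp
    linarith
  -- identity theorem
  obtain ⟨x, y, hy, hom⟩ := exists_om_gt hA hpos
  have hz₀ : (x + y * I : ℂ) ∈ HH := mem_HH_add hy
  have hz₀' : 1 / 2 < (F0 A (x + y * I)).re := by
    rw [F0_re hfin hz₀]
    simpa using hom
  have hev : kk Φ =ᶠ[𝓝 (x + y * I : ℂ)] 0 := by
    have h1 : ∀ᶠ z in 𝓝 (x + y * I : ℂ), z ∈ HH := isOpen_HH.mem_nhds hz₀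
    have h2 : ∀ᶠ z in 𝓝 (x + y * I : ℂ), 1 / 2 < (F0 A z).re :=
      (hcont.continuousAt (isOpen_HH.mem_nhds hz₀)).eventually (lt_mem_nhds hz₀')
    filter_upwards [h1, h2] with z hz1 hz2
    exact hvan z hz1 hz2
  have han : AnalyticOnNhd ℂ (kk Φ) HH := (differentiableOn_kk hd).analyticOnNhd isOpen_HH
  have := han.eqOn_zero_of_preconnected_of_eventuallyEq_zero convex_HH.isPreconnected hz₀ hev
  exact fun τ hτ => this hτ

end Pool.Agent.Lib.MP_ffb813_an
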