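import Pool.Agent.Lib.MP_ffb813_an.Partition

set_option autoImplicit false

open Complex MeasureTheory Set Filter Topology
open scoped ComplexConjugate Real NNReal

namespace Pool.Agent.Lib.MP_ffb813_an

lemma norm_UU_le {Φ : ℂ → ℂ} (hb : ∀ τ ∈ HH, ‖Φ τ‖ < 1) {τ : ℂ} (hτ : τ ∈ HH) :
    ‖UU Φ τ‖ ≤ Real.exp τ.im := by
  rw [UU, norm_mul, norm_exp_negI]
  have := hb τ hτ
  nlinarith [Real.exp_pos τ.im]

lemma tendsto_radial {Φ : ℂ → ℂ} (hb : ∀ τ ∈ HH, ‖Φ τ‖ < 1) {x : ℝ} (hx : x ∈ FJ Φ 1) :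
    Tendsto (fun y : ℝ => Φ (x + y * I)) (𝓝[>] 0) (𝓝 (eta Φ x)) := by
  rw [tendsto_iff_norm_sub_tendsto_zero]
  have h1 : ∀ᶠ y : ℝ in 𝓝[>] 0, ‖Φ (x + y * I) - eta Φ x‖ ≤ y := by
    filter_upwards [self_mem_nhdsWithin] with y hy
    have := JL_radial hb zero_le_one (eta_spec hx) (y := y) hy
    rw [norm_sub_rev]
    linarith
  have h2 : Tendsto (fun y : ℝ => y) (𝓝[>] 0) (𝓝 0) := tendsto_nhdsWithin_of_tendsto_nhds tendsto_id
  exact squeeze_zero' (Eventually.of_forall fun y => norm_nonneg _) h1 h2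

lemma tendsto_UU {Φ : ℂ → ℂ} (hb : ∀ τ ∈ HH, ‖Φ τ‖ < 1) {x : ℝ} (hx : x ∈ FJ Φ 1) :
    Tendsto (fun y : ℝ => UU Φ (x + y * I)) (𝓝[>] 0) (𝓝 (uu Φ x)) := by
  unfold UU uu
  apply (tendsto_radial hb hx).mul
  have c : Continuous (fun y : ℝ => Complex.exp (-(I * (x + y * I)))) := by fun_prop
  have := (c.tendsto 0).mono_left (nhdsWithin_le_nhds (s := Set.Ioi (0:ℝ)))
  simpa using this

lemma reduct {Φ h : ℂ → ℂ} (hd : DifferentiableOn ℂ Φ HH) (hb : ∀ τ ∈ HH, ‖Φ τ‖ < 1)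
    (hhd : DifferentiableOn ℂ h HH) {C : ℝ} (hC : ∀ τ ∈ HH, τ.im ≤ 1 → ‖h τ‖ ≤ C)
    {h₀ : ℝ → ℂ}
    (hh0 : ∀ x ∈ FJ Φ 1, Tendsto (fun y : ℝ => h (x + y * I)) (𝓝[>] 0) (𝓝 (h₀ x)))
    {T : ℝ} (hT : 0 < T) {A : ℕ → ℂ}
    (hA : ∀ n, ∀ y ∈ Ioc (0:ℝ) 1,
      ∫ x in (0:ℝ)..T, (UU Φ (x + y * I)) ^ n * h (x + y * I) = A n) :
    Tendsto (fun n => A n - ∫ x in FJ Φ 1 ∩ Ioc 0 T, (uu Φ x) ^ n * h₀ x) atTop (𝓝 0) := by
  have hC0 : 0 ≤ C := (norm_nonneg _).trans (hC (0 + (1:ℝ) * I) (mem_HH_add one_pos) (by simp))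
  have hFc : IsClosed (FJ Φ 1) := isClosed_FJ hd hb zero_le_one
  set F' := FJ Φ 1 ∩ Icc 0 T with hF'
  have hcomp : IsCompact F' := isCompact_Icc.inter_left hFc
  have hF'fin : volume F' ≠ ⊤ := hcomp.measure_lt_top.ne
  -- thin collars
  have hcollar : Tendsto (fun r : ℝ => volume (Metric.cthickening r F' \ FJ Φ 1)) (𝓝[>] 0) (𝓝 0) := by
    have t1 : Tendsto (fun r => volume (Metric.cthickening r F')) (𝓝 0) (𝓝 (volume F')) := by
      apply tendsto_measure_cthickening_of_isClosed _ hcomp.isClosed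
      exact ⟨1, one_pos, hcomp.cthickening.measure_lt_top.ne⟩
    have t2 : Tendsto (fun r => volume (Metric.cthickening r F') - volume F') (𝓝 0)
        (𝓝 (volume F' - volume F')) :=
      ENNReal.Tendsto.sub t1 tendsto_const_nhds (Or.inl hF'fin)
    rw [tsub_self] at t2
    have t3 := t2.mono_left (nhdsWithin_le_nhds (s := Set.Ioi (0:ℝ)))
    refine tendsto_of_tendsto_of_tendsto_of_le_of_le' tendsto_const_nhds t3
      (Eventually.of_forall fun r => bot_le) ?_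
    filter_upwards [self_mem_nhdsWithin] with r hr
    rw [← measure_sdiff (Metric.self_subset_cthickening F') hcomp.measurableSet.nullMeasurableSet
      hF'fin]
    apply measure_mono
    exact fun x hx => ⟨hx.1, fun h => hx.2 h.1⟩
  rw [Metric.tendsto_atTop]
  intro ε hε
  -- choose M
  have hM : ∃ M : ℕ, 0 < M ∧
      2 * C * (volume (Metric.cthickening (T / M) F' \ FJ Φ 1)).toReal ≤ ε / 4 := by
    have t4 : Tendsto (fun r : ℝ => (volume (Metric.cthickening r F' \ FJ Φ 1)).toReal)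
        (𝓝[>] 0) (𝓝 0) := by
      have := (ENNReal.tendsto_toReal ENNReal.zero_ne_top).comp hcollar
      simpa [Function.comp_def] using this
    have t5 : Tendsto (fun M : ℕ => T / (M:ℝ)) atTop (𝓝[>] 0) := by
      rw [tendsto_nhdsWithin_iff]
      refine ⟨tendsto_const_div_atTop_nhds_zero_nat T, ?_⟩
      filter_upwards [eventually_gt_atTop 0] with M hM
      have : (0:ℝ) < M := by exact_mod_cast hM
      exact div_pos hT this
    have t6 := (t4.comp t5).const_mul (2 * C)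
    rw [mul_zero] at t6
    have := (t6.eventually (gt_mem_nhds (show (0:ℝ) < ε / 4 by positivity))).and
      (eventually_gt_atTop 0)
    obtain ⟨M, hM1, hM2⟩ := this.exists
    exact ⟨M, hM2, hM1.le⟩
  obtain ⟨M, hM0, hMb⟩ := hM
  have hM' : (0:ℝ) < M := by exact_mod_cast hM0
  -- good intervals
  have hev : ∀ᶠ n : ℕ in atTop, ∀ m ∈ Finset.range M,
      (∀ x ∈ Icc ((m:ℝ) * (T / M)) (((m:ℝ) + 1) * (T / M)), x ∉ FJ Φ 1) →
      ∀ᶠ y : ℝ in 𝓝[>] 0, ‖∫ x in ((m:ℝ) * (T / M))..(((m:ℝ) + 1) * (T / M)),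
        (UU Φ (x + y * I)) ^ n * h (x + y * I)‖ ≤ (ε / 4) / M := by
    rw [Filter.eventually_all_finset]
    intro m _
    by_cases hg : ∀ x ∈ Icc ((m:ℝ) * (T / M)) (((m:ℝ) + 1) * (T / M)), x ∉ FJ Φ 1
    · have hle : ((m:ℝ) * (T / M)) ≤ (((m:ℝ) + 1) * (T / M)) := by
        have : 0 < T / M := by positivity
        nlinarith
      obtain ⟨y₀, hy₀, N, hN⟩ := contour_rect hd hb hhd hC hle hg
        (ε := (ε / 4) / M) (by positivity)
      filter_upwards [eventually_ge_atTop N] with n hn _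
      filter_upwards [Ioc_mem_nhdsGT hy₀] with y hy
      exact hN n hn y hy
    · exact Eventually.of_forall fun n h => absurd h hg
  obtain ⟨N, hN⟩ := eventually_atTop.mp hev
  refine ⟨N, fun n hn => ?_⟩
  have hn' := hN n hn
  have hall : ∀ᶠ y : ℝ in 𝓝[>] 0, ∀ m ∈ Finset.range M,
      (∀ x ∈ Icc ((m:ℝ) * (T / M)) (((m:ℝ) + 1) * (T / M)), x ∉ FJ Φ 1) →
      ‖∫ x in ((m:ℝ) * (T / M))..(((m:ℝ) + 1) * (T / M)),
        (UU Φ (x + y * I)) ^ n * h (x + y * I)‖ ≤ (ε / 4) / M := by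
    rw [Filter.eventually_all_finset]
    intro m hm
    by_cases hg : ∀ x ∈ Icc ((m:ℝ) * (T / M)) (((m:ℝ) + 1) * (T / M)), x ∉ FJ Φ 1
    · filter_upwards [hn' m hm hg] with y hy _
      exact hy
    · exact Eventually.of_forall fun n h => absurd h hg
  have hexp : ∀ᶠ y : ℝ in 𝓝[>] 0, Real.exp y ^ n ≤ 2 := by
    have c : Continuous (fun y : ℝ => Real.exp y ^ n) := by fun_prop
    have c1 := (c.tendsto 0).mono_left (nhdsWithin_le_nhds (s := Set.Ioi (0:ℝ)))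
    simp only [Real.exp_zero, one_pow] at c1
    filter_upwards [c1.eventually (gt_mem_nhds (show (1:ℝ) < 2 by norm_num))] with y hy
    exact hy.le
  have hIoc : ∀ᶠ y : ℝ in 𝓝[>] 0, y ∈ Ioc (0:ℝ) 1 := Ioc_mem_nhdsGT one_pos
  have hgbd : ∀ y : ℝ, y ∈ Ioc (0:ℝ) 1 → Real.exp y ^ n ≤ 2 → ∀ x : ℝ,
      ‖(UU Φ (x + y * I)) ^ n * h (x + y * I)‖ ≤ 2 * C := by
    intro y hy hey x
    rw [norm_mul, norm_pow]
    have h1 := norm_UU_le hb (mem_HH_add (x := x) hy.1)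
    simp only [add_im, ofReal_im, mul_im, ofReal_re, I_im, mul_one, I_re, mul_zero, add_zero,
      zero_add] at h1
    have h2 := hC _ (mem_HH_add (x := x) hy.1) (by simpa using hy.2)
    exact mul_le_mul ((pow_le_pow_left₀ (norm_nonneg _) h1 n).trans hey) h2 (norm_nonneg _)
      (by norm_num)
  have hgcont : ∀ y : ℝ, 0 < y → Continuous
      (fun x : ℝ => (UU Φ (x + y * I)) ^ n * h (x + y * I)) := by
    intro y hy
    have hW : ContinuousOn (fun τ => (UU Φ τ) ^ n * h τ) HH :=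
      (((differentiableOn_UU hd).pow n).mul hhd).continuousOn
    exact hW.comp_continuous (f := fun x : ℝ => (x + y * I : ℂ)) (by fun_prop)
      (fun x => mem_HH_add hy)
  have hbound : ∀ᶠ y : ℝ in 𝓝[>] 0, ‖A n - ∫ x in FJ Φ 1 ∩ Ioc 0 T,
      (UU Φ (x + y * I)) ^ n * h (x + y * I)‖ ≤ ε / 2 := by
    filter_upwards [hall, hexp, hIoc] with y hy1 hy2 hy3
    have pb := partition_bound hFc (hgcont y hy3.1) (hgbd y hy3 hy2) hT hM0
      (ε := ε / 4) (by positivity) (fun m hm => hy1 m (Finset.mem_range.mpr hm))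
    have e1 := hA n y hy3
    rw [intervalIntegral.integral_of_le hT.le] at e1 pb
    have hint : IntegrableOn (fun x : ℝ => (UU Φ (x + y * I)) ^ n * h (x + y * I)) (Ioc 0 T) :=
      (hgcont y hy3.1).integrableOn_Ioc
    rw [setIntegral_indicator hFc.measurableSet.compl] at pb
    have e2 := integral_inter_add_sdiff (s := Ioc 0 T) hFc.measurableSet hint
    rw [← Set.sdiff_eq] at pb
    rw [← e1, ← e2, Set.inter_comm, add_sub_cancel_left]
    linarith
  have hlimit : Tendsto (fun y : ℝ => ∫ x in FJ Φ 1 ∩ Ioc 0 T,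
      (UU Φ (x + y * I)) ^ n * h (x + y * I)) (𝓝[>] 0)
      (𝓝 (∫ x in FJ Φ 1 ∩ Ioc 0 T, (uu Φ x) ^ n * h₀ x)) := by
    apply tendsto_integral_filter_of_dominated_convergence (fun _ => 2 * C)
    · filter_upwards [self_mem_nhdsWithin] with y hy
      exact (hgcont y hy).aestronglyMeasurable
    · filter_upwards [hexp, hIoc] with y hy1 hy2
      exact Eventually.of_forall (hgbd y hy2 hy1)
    · apply integrable_const_iff.mpr
      right
      rw [isFiniteMeasure_restrict]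
      exact ((measure_mono Set.inter_subset_right).trans_lt measure_Ioc_lt_top).ne
    · filter_upwards [ae_restrict_mem (hFc.measurableSet.inter measurableSet_Ioc)] with x hx
      exact ((tendsto_UU hb hx.1).pow n).mul (hh0 x hx.1)
  have hfinal := le_of_tendsto ((tendsto_const_nhds.sub hlimit).norm) hbound
  rw [dist_zero_right]
  linarith

end Pool.Agent.Lib.MP_ffb813_an
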