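import Pool.Agent.Lib.MP_ffb813_an.SP

set_option autoImplicit false

open Complex MeasureTheory Set Filter Topology
open scoped ComplexConjugate Real

namespace Pool.Agent.Lib.MP_ffb813_an

lemma norm_sq_sub_conj (τ₁ τ₂ : ℂ) :
    ‖τ₂ - conj τ₁‖ ^ 2 - ‖τ₂ - τ₁‖ ^ 2 = 4 * τ₁.im * τ₂.im := by
  rw [← Complex.normSq_eq_norm_sq, ← Complex.normSq_eq_norm_sq]
  simp only [normSq_apply, sub_re, sub_im, conj_re, conj_im]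
  ring

lemma norm_sq_one_sub (v₁ v₂ : ℂ) :
    ‖1 - conj v₁ * v₂‖ ^ 2 - ‖v₂ - v₁‖ ^ 2 = (1 - ‖v₁‖ ^ 2) * (1 - ‖v₂‖ ^ 2) := by
  rw [← Complex.normSq_eq_norm_sq, ← Complex.normSq_eq_norm_sq, ← Complex.normSq_eq_norm_sq,
    ← Complex.normSq_eq_norm_sq]
  simp only [normSq_apply, sub_re, sub_im, conj_re, conj_im, mul_re, mul_im, one_re, one_im]
  ring

lemma one_sub_ne_zero {v₁ v₂ : ℂ} (h₁ : ‖v₁‖ < 1) (h₂ : ‖v₂‖ < 1) : 1 - conj v₁ * v₂ ≠ 0 := by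
  intro h
  have h3 : conj v₁ * v₂ = 1 := by linear_combination -h
  have h4 : ‖conj v₁ * v₂‖ = 1 := by rw [h3]; simp
  rw [norm_mul, Complex.norm_conj] at h4
  nlinarith [norm_nonneg v₁, norm_nonneg v₂]

/-- Schwarz-Pick for maps from the upper half plane to the disc. -/
lemma schwarz_pick {Φ : ℂ → ℂ} (hd : DifferentiableOn ℂ Φ HH) (hb : ∀ τ ∈ HH, ‖Φ τ‖ < 1)
    {τ₁ τ₂ : ℂ} (h₁ : τ₁ ∈ HH) (h₂ : τ₂ ∈ HH) :
    4 * τ₁.im * τ₂.im * ‖1 - conj (Φ τ₁) * Φ τ₂‖ ^ 2 ≤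
      (1 - ‖Φ τ₁‖ ^ 2) * (1 - ‖Φ τ₂‖ ^ 2) * ‖τ₂ - conj τ₁‖ ^ 2 := by
  have hne : ∀ τ ∈ HH, 1 - conj (Φ τ₁) * Φ τ ≠ 0 := fun τ hτ =>
    one_sub_ne_zero (hb _ h₁) (hb _ hτ)
  have key := schwarz_HH (f := fun τ => (Φ τ - Φ τ₁) / (1 - conj (Φ τ₁) * Φ τ)) (τ₀ := τ₁)
    (τ := τ₂) ?_ ?_ h₁ h₂ (by simp)
  · rw [norm_div, div_mul_eq_mul_div, div_le_iff₀ (norm_pos_iff.mpr (hne _ h₂))] at key
    have e1 := norm_sq_sub_conj τ₁ τ₂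
    have e2 := norm_sq_one_sub (Φ τ₁) (Φ τ₂)
    have key2 : (‖Φ τ₂ - Φ τ₁‖ * ‖τ₂ - conj τ₁‖) ^ 2 ≤
        (‖τ₂ - τ₁‖ * ‖1 - conj (Φ τ₁) * Φ τ₂‖) ^ 2 := by
      apply pow_le_pow_left₀ (by positivity) key
    rw [mul_pow, mul_pow] at key2
    have e3 : ‖τ₂ - τ₁‖ ^ 2 = ‖τ₂ - conj τ₁‖ ^ 2 - 4 * τ₁.im * τ₂.im := by linarith
    have e4 : ‖Φ τ₂ - Φ τ₁‖ ^ 2 = ‖1 - conj (Φ τ₁) * Φ τ₂‖ ^ 2 -
      (1 - ‖Φ τ₁‖ ^ 2) * (1 - ‖Φ τ₂‖ ^ 2) := by linarith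
    rw [e3, e4] at key2
    nlinarith [key2]
  · apply DifferentiableOn.div
    · exact hd.sub_const _
    · exact (differentiableOn_const _).sub ((differentiableOn_const _).mul hd)
    · exact hne
  · intro τ hτ
    rw [norm_div, div_le_one (norm_pos_iff.mpr (hne _ hτ))]
    have e2 := norm_sq_one_sub (Φ τ₁) (Φ τ)
    have h3 : 0 ≤ (1 - ‖Φ τ₁‖ ^ 2) * (1 - ‖Φ τ‖ ^ 2) := by
      have a1 := hb _ h₁
      have a2 := hb _ hτ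
      have b1 := norm_nonneg (Φ τ₁)
      have b2 := norm_nonneg (Φ τ)
      apply mul_nonneg <;> nlinarith
    apply le_of_sq_le_sq _ (norm_nonneg _)
    linarith

/-- Growth of analytic functions with nonnegative real part on the upper half plane. -/
lemma growth_aux {S : ℂ → ℂ} (hd : DifferentiableOn ℂ S HH) (hb : ∀ τ ∈ HH, 0 < (S τ).re)
    {τ₀ τ : ℂ} (h₀ : τ₀ ∈ HH) (hτ : τ ∈ HH) :
    ‖S τ‖ * (‖τ - conj τ₀‖ - ‖τ - τ₀‖) ≤ ‖S τ₀‖ * (‖τ - conj τ₀‖ + ‖τ - τ₀‖) := by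
  have hne : ∀ z ∈ HH, S z + conj (S τ₀) ≠ 0 := by
    intro z hz h
    have h1 : (S z + conj (S τ₀)).re = 0 := by rw [h]; simp
    simp only [add_re, conj_re] at h1
    have := hb z hz
    have := hb τ₀ h₀
    linarith
  have key := schwarz_HH (f := fun z => (S z - S τ₀) / (S z + conj (S τ₀))) (τ₀ := τ₀)
    (τ := τ) ?_ ?_ h₀ hτ (by simp)
  · rw [norm_div, div_mul_eq_mul_div, div_le_iff₀ (norm_pos_iff.mpr (hne _ hτ))] at key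
    have t1 : ‖S τ + conj (S τ₀)‖ ≤ ‖S τ‖ + ‖S τ₀‖ := by
      have := norm_add_le (S τ) (conj (S τ₀))
      rwa [Complex.norm_conj] at this
    have t2 : ‖S τ‖ - ‖S τ₀‖ ≤ ‖S τ - S τ₀‖ := norm_sub_norm_le _ _
    have p1 := norm_nonneg (τ - conj τ₀)
    have p2 := norm_nonneg (τ - τ₀)
    have q1 : (‖S τ‖ - ‖S τ₀‖) * ‖τ - conj τ₀‖ ≤ ‖S τ - S τ₀‖ * ‖τ - conj τ₀‖ :=
      mul_le_mul_of_nonneg_right t2 p1
    have q2 : ‖τ - τ₀‖ * ‖S τ + conj (S τ₀)‖ ≤ ‖τ - τ₀‖ * (‖S τ‖ + ‖S τ₀‖) :=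
      mul_le_mul_of_nonneg_left t1 p2
    nlinarith
  · apply DifferentiableOn.div
    · exact hd.sub_const _
    · exact hd.add_const _
    · exact hne
  · intro z hz
    rw [norm_div, div_le_one (norm_pos_iff.mpr (hne _ hz))]
    apply le_of_sq_le_sq _ (norm_nonneg _)
    rw [← Complex.normSq_eq_norm_sq, ← Complex.normSq_eq_norm_sq]
    simp only [normSq_apply, sub_re, sub_im, conj_re, conj_im, add_re, add_im]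
    have := hb z hz
    have := hb τ₀ h₀
    nlinarith [mul_pos (hb z hz) (hb τ₀ h₀)]

lemma growth {S : ℂ → ℂ} (hd : DifferentiableOn ℂ S HH) (hb : ∀ τ ∈ HH, 0 ≤ (S τ).re)
    {τ₀ τ : ℂ} (h₀ : τ₀ ∈ HH) (hτ : τ ∈ HH) :
    ‖S τ‖ * (‖τ - conj τ₀‖ - ‖τ - τ₀‖) ≤ ‖S τ₀‖ * (‖τ - conj τ₀‖ + ‖τ - τ₀‖) := by
  have h : ∀ ε : ℝ, 0 < ε → ‖S τ + ε‖ * (‖τ - conj τ₀‖ - ‖τ - τ₀‖) ≤
      ‖S τ₀ + ε‖ * (‖τ - conj τ₀‖ + ‖τ - τ₀‖) := by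
    intro ε hε
    apply growth_aux (S := fun z => S z + ε) (hd.add_const _) _ h₀ hτ
    intro z hz
    simp only [add_re, ofReal_re]
    linarith [hb z hz]
  have c1 : ContinuousAt (fun ε : ℝ => ‖S τ + ε‖ * (‖τ - conj τ₀‖ - ‖τ - τ₀‖)) 0 := by fun_prop
  have c2 : ContinuousAt (fun ε : ℝ => ‖S τ₀ + ε‖ * (‖τ - conj τ₀‖ + ‖τ - τ₀‖)) 0 := by fun_prop
  have t1 := c1.tendsto.mono_left (nhdsWithin_le_nhds (s := Set.Ioi (0:ℝ)))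
  have t2 := c2.tendsto.mono_left (nhdsWithin_le_nhds (s := Set.Ioi (0:ℝ)))
  simp only [ofReal_zero, add_zero] at t1 t2
  exact le_of_tendsto_of_tendsto t1 t2 (eventually_nhdsWithin_of_forall fun ε hε => h ε hε)

end Pool.Agent.Lib.MP_ffb813_an
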